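import Mathlib
import Pool.Agent.helper47.SPI.Spec
import Pool.Agent.helper82.KL.D

/-!
# Project OT (MP_f6e9a2_nt): one set in a progression of at most `p^(3/4-ε)` terms, the other set arbitrary

Common notions, and the two new exponential sum bounds W1, W2.
`ps t` stands for `(ZMod.stdAddChar t : ℂ)`, which is `exp (2 π i t / p)`.
-/

set_option autoImplicit false

namespace Pool.Agent.OT

open Finset

/-- the standard additive character `ps t = exp (2 π i t / p)` -/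
noncomputable def ps {p : ℕ} [NeZero p] (t : ZMod p) : ℂ := (ZMod.stdAddChar t : ℂ)

/-- the weighted character sum `∑_(b ∈ B) β b χ(x + b)` -/
noncomputable def FB {p : ℕ} (χ : MulChar (ZMod p) ℂ) (B : Finset (ZMod p)) (β : ZMod p → ℂ) (x : ZMod p) : ℂ :=
  ∑ b ∈ B, β b * χ (x + b)

/-- the Fejer kernel `ψ(x) = |T⁻¹ ∑_(s<T) ps(s x)|²` -/
noncomputable def psi {p : ℕ} [NeZero p] (T : ℕ) (x : ZMod p) : ℝ :=
  ‖∑ s ∈ range T, ps ((s : ZMod p) * x)‖ ^ 2 / (T : ℝ) ^ 2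

/-- its Fourier coefficients `wt(r) = #{(s, s') : s, s' < T, s - s' = r} / T²` -/
noncomputable def wt {p : ℕ} (T : ℕ) (r : ZMod p) : ℝ :=
  (((range T ×ˢ range T).filter fun z => (z.1 : ZMod p) - (z.2 : ZMod p) = r).card : ℝ) / (T : ℝ) ^ 2

/-- the local additive energy `#{(b₁,b₂,b₃,b₄) ∈ B⁴ : b₁ - b₂ = b₃ - b₄, |b₁ - b₃| < N}` -/
def EN {p : ℕ} (N : ℕ) (B : Finset (ZMod p)) : ℕ :=
  (((B ×ˢ B) ×ˢ (B ×ˢ B)).filter fun z =>
    z.1.1 - z.1.2 = z.2.1 - z.2.2 ∧ (z.1.1 - z.2.1).valMinAbs.natAbs < N).card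

/-- the cells `[j N, (j+1) N)` which meet `B` -/
def cells {p : ℕ} (N : ℕ) (B : Finset (ZMod p)) : Finset ℕ := B.image fun b => b.val / N

/-- the part of `B` in the cell `[j N, (j+1) N)` -/
def cell {p : ℕ} (N : ℕ) (B : Finset (ZMod p)) (j : ℕ) : Finset (ZMod p) := B.filter fun b => b.val / N = j

/-- W1 (mixed Weil bound; `helper82`).  The sum `∑_t ps(u t) conj χ(t) χ(t + r)`, `r ≠ 0`.  For `u = 0` its modulus
is `1`.  For `u ≠ 0` its L-function `L_u = ∏ over monic g` with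
`Λ_u(g) = χ((-1)^n g(-r)) conj χ((-1)^n g(0)) ps(-u nextCoeff g)` (`n = deg g`) is a polynomial of degree `≤ 2`
(`cA_n = 0` for `n ≥ 3`: fix `g(0)`, `g(-r)`, vary the next coefficient) and
`∑_(j ∈ ZMod p) SA_r(j u) = ∑_(w ∈ K) χ_K(w^p - w + u r) conj χ_K(w^p - w)` over an extension `K` over which the
polynomials split, at most `2 p |K|^(1/2)` by `ZZ_bound`; the term `j = 0` has modulus `1`.  Root bound for the
product of all `L_(j u)`. -/
def W1_stmt : Prop := ∀ (p : ℕ) [Fact p.Prime] (χ : MulChar (ZMod p) ℂ), χ ≠ 1 → ∀ r u : ZMod p, r ≠ 0 →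
  ‖∑ t : ZMod p, ps (u * t) * (starRingEnd ℂ) (χ t) * χ (t + r)‖ ≤ 4 * Real.sqrt p

/-- W2 (quadratic character of a product of two quadratic polynomials which need not split; `helper82`). -/
def W2_stmt : Prop := ∀ (p : ℕ) [Fact p.Prime], p ≠ 2 → ∀ a b c a' b' c' : ZMod p,
  ¬ (b ^ 2 - 4 * a * c = 0 ∧ b' ^ 2 - 4 * a' * c' = 0) →
  (¬ ∃ κ : ZMod p, κ ≠ 0 ∧ a' = κ * a ∧ b' = κ * b ∧ c' = κ * c) →
    |∑ x : ZMod p, ((quadraticChar (ZMod p) ((a * x ^ 2 + b * x + c) * (a' * x ^ 2 + b' * x + c')) : ℤ) : ℝ)| ≤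
      4 * Real.sqrt p

end Pool.Agent.OT
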