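import Mathlib
import Pool.Agent.helper64.OT.Defs
import Pool.Agent.helper82.Weil.M

/-!
# Project OT (MP_f6e9a2_nt), block M: the fourth moment of the weighted correlations

`ψ = psi T`, `N₀ = p / T = ∑ ψ`, `Tp χ T c c' = ∑_x ψ(x) χ(x + c) conj χ(x + c')` for `c, c' ∈ F_p ∪ {∞}` (`∞`: factor
`1`).  THEOREM (`M4_stmt`): `∑_(c ≠ c') |Tp χ T c c'|⁴ ≤ 200 (N₀² p² + N₀ p^(11/4))`.

IDEA.  Expanding, `∑_(c,c') |Tp|⁴ = ∑_x ψ(x₁)ψ(x₂)ψ(x₃)ψ(x₄) |CS(x)|²` with a complete sum `CS(x)` over the projective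
line, which depends only on the cross ratio `lam` of the `x_i`: `|CS(x)|² = HH(lam) ≤ 4 p`, `∑ HH = p(p-2) - 1`.  The
weighted number `nn(lam)` of quadruples with cross ratio `lam` is `N₀⁴/p + DS(lam)`, with an EXACT formula
`DS(lam) = p² ∑_(a,b,c) wt(a) wt(b) wt(c) wt(-(a+b+c)) χ₂(PX(a,b,c; lam))`, `PX` a quadratic polynomial in `lam` with
discriminant `-16 a b c (a+b+c)`; its second moment is small by W2.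

RULES.  Every `X_stmt` is proved in a module `Pool/Agent/<seat>/OT/X.lean` (import this file, namespace
`Pool.Agent.OT`, `open Finset`), `theorem X ... : X_stmt`, exact theorem line in the lock note.  Other rows enter
only as hypotheses.  Auxiliary lemmas prefixed `X_`.  No double quotes, no native_decide, no convert / congr!.
`ps t = (ZMod.stdAddChar t : ℂ)` (additive: `AddChar.map_add_eq_mul`; `conj (ps t) = ps (-t)`; `|ps t| = 1`).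
-/

set_option autoImplicit false

namespace Pool.Agent.OT

open Finset

/-- `χ(x + c)` for `c ∈ ZMod p`, and `1` for `c = ∞` -/
noncomputable def ch {p : ℕ} (χ : MulChar (ZMod p) ℂ) : Option (ZMod p) → ZMod p → ℂ
  | none, _ => 1
  | some c, x => χ (x + c)

/-- the weighted correlation `∑_x ψ(x) χ(x + c) conj χ(x + c')` -/
noncomputable def Tp {p : ℕ} [NeZero p] (χ : MulChar (ZMod p) ℂ) (T : ℕ) (c c' : Option (ZMod p)) : ℂ :=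
  ∑ x : ZMod p, (psi T x : ℂ) * (ch χ c x * (starRingEnd ℂ) (ch χ c' x))

/-- the complete sum `∑_(c ∈ F_p ∪ {∞}) χ(x₁+c) χ(x₃+c) conj (χ(x₂+c) χ(x₄+c))` -/
noncomputable def CS {p : ℕ} [NeZero p] (χ : MulChar (ZMod p) ℂ) (x₁ x₂ x₃ x₄ : ZMod p) : ℂ :=
  ∑ c : Option (ZMod p), (ch χ c x₁ * ch χ c x₃) * (starRingEnd ℂ) (ch χ c x₂ * ch χ c x₄)

/-- `|∑_z χ(z) χ(z - lam) conj χ(z - 1)|²` -/
noncomputable def HH {p : ℕ} [NeZero p] (χ : MulChar (ZMod p) ℂ) (lam : ZMod p) : ℝ :=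
  ‖∑ z : ZMod p, χ z * χ (z - lam) * (starRingEnd ℂ) (χ (z - 1))‖ ^ 2

/-- the quadratic form `(x₁-x₃)(x₂-x₄) - lam (x₁-x₄)(x₂-x₃)` -/
def qq {p : ℕ} (lam x₁ x₂ x₃ x₄ : ZMod p) : ZMod p := (x₁ - x₃) * (x₂ - x₄) - lam * ((x₁ - x₄) * (x₂ - x₃))

/-- the weighted number of quadruples with `qq = 0` -/
noncomputable def nn {p : ℕ} [NeZero p] (T : ℕ) (lam : ZMod p) : ℝ :=
  ∑ x₁ : ZMod p, ∑ x₂ : ZMod p, ∑ x₃ : ZMod p, ∑ x₄ : ZMod p,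
    if qq lam x₁ x₂ x₃ x₄ = 0 then psi T x₁ * psi T x₂ * psi T x₃ * psi T x₄ else 0

/-- the polynomial `(a+c-lam (b+c))² + 4 lam a b` -/
def PX {p : ℕ} (a b c lam : ZMod p) : ZMod p := (a + c - lam * (b + c)) ^ 2 + 4 * lam * (a * b)

/-- the weight `wt(a) wt(b) wt(c) wt(-(a+b+c))` -/
noncomputable def wq {p : ℕ} (T : ℕ) (a b c : ZMod p) : ℝ := wt T a * wt T b * wt T c * wt T (-(a + b + c))

/-- `p² ∑_(a,b,c) wq(a,b,c) χ₂(PX(a,b,c; lam))` -/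
noncomputable def DS {p : ℕ} [Fact p.Prime] (T : ℕ) (lam : ZMod p) : ℝ :=
  (p : ℝ) ^ 2 * ∑ a : ZMod p, ∑ b : ZMod p, ∑ c : ZMod p,
    wq T a b c * ((quadraticChar (ZMod p) (PX a b c lam) : ℤ) : ℝ)

/-! ### The kernel -/

/-- PSI (short-medium).  `0 ≤ psi T x ≤ 1` (a sum of `T` numbers of modulus `1`), and
`∑_x |∑_(s<T) ps(s x)|² = p T` (expand the square; `∑_x ps((s-s') x) = p` if `(s : ZMod p) = s'`, i.e. `s = s'` as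
`s, s' < T ≤ p`, and `0` otherwise: `AddChar.sum_mulShift`, `ZMod.isPrimitive_stdAddChar`; or `PLN` of
`Pool/Agent/helper98/SPI/PLN.lean`). -/
def PSI_stmt : Prop := ∀ (p : ℕ) [Fact p.Prime] (T : ℕ), 0 < T → T ≤ p →
  (∀ x : ZMod p, 0 ≤ psi T x ∧ psi T x ≤ 1) ∧ ∑ x : ZMod p, psi T x = p / T

/-- WTF (short-medium).  `wt T r = #{(s,s') ∈ [0,T)² : s - s' = r} / T²`.  (1) `|∑_s ps(s x)|² = ∑_(s,s') ps((s-s') x)`,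
grouped by `r = s - s'`.  (2) for given `r` and `s` at most one `s' < T` (`T ≤ p`): `wt ≤ T / T²`.  (3) `∑_r` of the
number is `T²`.  (4) with `S = {r : wt T r ≠ 0}`: every `r ∈ S` is the class of an integer `s - s' ∈ (-T, T)`, every
element of `S + S` the class of an integer in `(-2T, 2T)`: `|{z₁ + z₂}| ≤ 4 T`. -/
def WTF_stmt : Prop := ∀ (p : ℕ) [Fact p.Prime] (T : ℕ), 0 < T → T ≤ p →
  (∀ x : ZMod p, (psi T x : ℂ) = ∑ r : ZMod p, (wt T r : ℂ) * ps (r * x)) ∧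
  (∀ r : ZMod p, 0 ≤ wt T r ∧ wt T r ≤ 1 / (T : ℝ)) ∧
  ∑ r : ZMod p, wt T r = 1 ∧
  (((univ.filter fun r : ZMod p => wt T r ≠ 0) ×ˢ (univ.filter fun r : ZMod p => wt T r ≠ 0)).image
    fun z => z.1 + z.2).card ≤ 4 * T

/-! ### The expansion -/

/-- FME (short-medium; expansion).  `|Tp|⁴ = Tp conj Tp Tp conj Tp`, four sums over `x₁, x₂, x₃, x₄` (`psi` is real);
exchange the sums; the sum over `c` is `CS(x)`, the sum over `c'` is `conj CS(x)`; `CS conj CS = |CS|²`. -/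
def FME_stmt : Prop := ∀ (p : ℕ) [Fact p.Prime] (χ : MulChar (ZMod p) ℂ) (T : ℕ),
  ∑ c : Option (ZMod p), ∑ c' : Option (ZMod p), ‖Tp χ T c c'‖ ^ 4 =
    ∑ x₁ : ZMod p, ∑ x₂ : ZMod p, ∑ x₃ : ZMod p, ∑ x₄ : ZMod p,
      psi T x₁ * psi T x₂ * psi T x₃ * psi T x₄ * ‖CS χ x₁ x₂ x₃ x₄‖ ^ 2

/-- CRR (medium; the cross ratio).  `k = (x₂-x₄)/(x₁-x₄)`, `lam = k (x₁-x₃)/(x₂-x₃)`.  For `c ≠ -x₂` put
`z = k (c+x₁)/(c+x₂)`, and `z = k` for `c = ∞`: a bijection of `(F_p \ {-x₂}) ∪ {∞}` onto `F_p` (inverse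
`c = (z x₂ - k x₁)/(k - z)`, `z = k ↦ ∞`).  `z - lam = k (x₂-x₁)(c+x₃)/((c+x₂)(x₂-x₃))`,
`z - 1 = k (x₂-x₁)(c+x₄)/((c+x₂)(x₂-x₄))`, so `z (z-lam)/(z-1) = κ (c+x₁)(c+x₃)/((c+x₂)(c+x₄))` with
`κ = k (x₂-x₄)/(x₂-x₃) ≠ 0`, and for `c = ∞`, `z = k`: `k (k-lam)/(k-1) = κ`.  So, as `conj χ(y) = χ⁻¹(y) = χ(y⁻¹)`:
`χ(z) χ(z-lam) conj χ(z-1) = χ(κ) (term of CS)` (for `c = -x₄`, i.e. `z = 1`, both are `0`; the term `c = -x₂` of `CS` is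
`0`), and `|χ(κ)| = 1`.  Suggestion: `Fintype.sum_option`, drop `c = -x₂`, then a bijection. -/
def CRR_stmt : Prop := ∀ (p : ℕ) [Fact p.Prime] (χ : MulChar (ZMod p) ℂ) (x₁ x₂ x₃ x₄ : ZMod p),
  x₁ ≠ x₂ → x₁ ≠ x₃ → x₁ ≠ x₄ → x₂ ≠ x₃ → x₂ ≠ x₄ → x₃ ≠ x₄ →
    ‖CS χ x₁ x₂ x₃ x₄‖ ^ 2 = HH χ ((x₁ - x₃) * (x₂ - x₄) / ((x₁ - x₄) * (x₂ - x₃)))

/-- HHB (short; Weil).  `weil_finset` (`Pool.Agent.helper82.Weil.weil_finset`) for `s = {lam, 1}` with exponents `1`,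
`p - 2` (`conj_chi`): the sum is `∑ χ(z (z - lam) (z - 1)^(p-2))`, at most `2 p^(1/2)`. -/
def HHB_stmt : Prop := ∀ (p : ℕ) [Fact p.Prime] (χ : MulChar (ZMod p) ℂ) (lam : ZMod p), χ ≠ 1 → lam ≠ 0 →
  lam ≠ 1 → HH χ lam ≤ 4 * p

/-- HHS (short-medium; orthogonality).  `G z = χ z conj χ(z-1)`.  `∑_lam |∑_z G(z) χ(z - lam)|² =
∑_(z,z') G(z) conj G(z') ∑_lam χ(z-lam) conj χ(z'-lam)`; the inner sum is `p - 1` for `z = z'` and `-1` for `z ≠ z'`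
(put `u = (z-lam)/(z'-lam)`; `∑_(u ≠ 1) χ(u) = -1`; see `Pool/Agent/helper82/Weil` or search `= -1` lemmas), so the
sum is `p ∑ |G|² - |∑ G|² ≤ p (p-2)` (`G(0) = G(1) = 0`). -/
def HHS_stmt : Prop := ∀ (p : ℕ) [Fact p.Prime] (χ : MulChar (ZMod p) ℂ), χ ≠ 1 →
  ∑ lam : ZMod p, HH χ lam ≤ (p : ℝ) * (p - 2)

/-- CSB (medium; coincidences).  If one of `x₁, x₃` equals one of `x₂, x₄`, say `x₁ = x₂`, then `x₃ ≠ x₄` and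
`CS = 1 + ∑_(c ≠ -x₁) χ(x₃+c) conj χ(x₄+c) = 1 - 1 - χ(x₃-x₁) conj χ(x₄-x₁)` (the complete sum is `-1`), modulus
`≤ 1` (the other three cases by the symmetries `x₁ ↔ x₃`, `x₂ ↔ x₄` of `CS`).  Otherwise `x₁ = x₃` (or `x₂ = x₄`, take
complex conjugates), `x₂ ≠ x₄`, both `≠ x₁`: `CS = 1 + ∑_c χ(x₁+c)² conj χ(x₂+c) conj χ(x₄+c)`, and the conjugate of
the sum is `∑_c χ((x₂+c)(x₄+c)(x₁+c)^(2(p-2)))`, at most `2 p^(1/2)` by `Pool.Agent.helper82.Weil.weil_shift`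
(`ι = Fin 3`).  So `|CS| ≤ 3 p^(1/2)`. -/
def CSB_stmt : Prop := ∀ (p : ℕ) [Fact p.Prime] (χ : MulChar (ZMod p) ℂ) (x₁ x₂ x₃ x₄ : ZMod p), χ ≠ 1 →
  (x₁ = x₂ ∨ x₁ = x₃ ∨ x₁ = x₄ ∨ x₂ = x₃ ∨ x₂ = x₄ ∨ x₃ = x₄) →
  ¬ (x₁ = x₂ ∧ x₃ = x₄) → ¬ (x₁ = x₄ ∧ x₂ = x₃) → ¬ (x₁ = x₃ ∧ x₂ = x₄) →
    ‖CS χ x₁ x₂ x₃ x₄‖ ^ 2 ≤ 9 * p

/-- MF1 (medium; from PSI, CRR, CSB).  `N₀ = p/T`.  Split the quadruples.  (i) pairwise different: CRR, the cross ratio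
`lam` is neither `0` nor `1` (`lam = 1` iff `(x₁-x₂)(x₃-x₄) = 0`) and `qq lam x = 0`; for given `x` there is only this
`lam`, so the part is at most `∑_(lam ≠ 0,1) HH(lam) nn(lam)` (all terms `≥ 0`).  (ii) the three patterns
`x₁=x₂, x₃=x₄` / `x₁=x₄, x₂=x₃` / `x₁=x₃, x₂=x₄`: `|CS| ≤ p+1`, weight `∑_(x,y) ψ(x)² ψ(y)² ≤ N₀²`.  (iii) the rest:
`|CS|² ≤ 9 p` (CSB), weight at most `∑_(i<j) ∑_(x_i = x_j) ≤ 6 N₀³` (`ψ ≤ 1`, `∑ ψ = N₀`). -/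
def MF1_stmt : Prop := ∀ (p : ℕ) [Fact p.Prime] (χ : MulChar (ZMod p) ℂ) (T : ℕ), χ ≠ 1 → 0 < T → T ≤ p →
  ∑ x₁ : ZMod p, ∑ x₂ : ZMod p, ∑ x₃ : ZMod p, ∑ x₄ : ZMod p,
      psi T x₁ * psi T x₂ * psi T x₃ * psi T x₄ * ‖CS χ x₁ x₂ x₃ x₄‖ ^ 2 ≤
    ∑ lam ∈ univ.filter (fun lam : ZMod p => lam ≠ 0 ∧ lam ≠ 1), HH χ lam * nn T lam +
      3 * ((p : ℝ) / T) ^ 2 * ((p : ℝ) + 1) ^ 2 + 54 * ((p : ℝ) / T) ^ 3 * p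

/-- DIA (short-medium; from PSI; the diagonal).  `N₀ = p/T`.  `Tp ∞ ∞ = ∑ ψ = N₀`; `Tp c c = ∑_x ψ(x) |χ(x+c)|² =
N₀ - ψ(-c)`, `0 ≤ ψ(-c) ≤ N₀`, and `(N₀ - ψ)⁴ ≥ N₀⁴ - 4 N₀³ ψ` (`one_add_mul_le_pow`, or nlinarith); sum over `c`
(`Fintype.sum_option`): `≥ N₀⁴ + p N₀⁴ - 4 N₀³ ∑_c ψ(-c) = (p+1) N₀⁴ - 4 N₀⁴`. -/
def DIA_stmt : Prop := ∀ (p : ℕ) [Fact p.Prime] (χ : MulChar (ZMod p) ℂ) (T : ℕ), 0 < T → T ≤ p →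
  ((p : ℝ) - 3) * ((p : ℝ) / T) ^ 4 ≤ ∑ c : Option (ZMod p), ‖Tp χ T c c‖ ^ 4

/-- MF2 (medium; from FME, MF1, DIA, HHB, HHS, PSI).  `N₀ = p/T ≤ p`.  FME, MF1: the sum over all pairs is at most
`∑_(lam ≠ 0,1) HH nn + 12 N₀² p² + 54 N₀² p²`.  `HH nn = HH N₀⁴/p + HH (nn - N₀⁴/p) ≤ HH N₀⁴/p + 4 p |nn - N₀⁴/p|` and
`∑ HH ≤ p (p-2)` (`HH ≥ 0`).  Subtract the diagonal (DIA): `(p-2) N₀⁴ - (p-3) N₀⁴ = N₀⁴ ≤ N₀² p²`. -/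
def MF2_stmt : Prop := ∀ (p : ℕ) [Fact p.Prime] (χ : MulChar (ZMod p) ℂ) (T : ℕ), χ ≠ 1 → 0 < T → T ≤ p →
  ∑ c : ZMod p, ∑ c' ∈ univ.filter (fun c' : ZMod p => c ≠ c'), ‖Tp χ T (some c) (some c')‖ ^ 4 ≤
    4 * p * ∑ lam ∈ univ.filter (fun lam : ZMod p => lam ≠ 0 ∧ lam ≠ 1), |nn T lam - ((p : ℝ) / T) ^ 4 / p| +
      100 * ((p : ℝ) / T) ^ 2 * (p : ℝ) ^ 2

/-! ### The exact formula -/

/-- GQ (medium; quadratic Gauss sums).  `g = gaussSum` of the (complex valued) quadratic character and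
`ZMod.stdAddChar`.  `g² = χ₂(-1) p`: `gaussSum_sq`.  `∑_h χ₂(h) ps(m h) = χ₂(m) g` (`gaussSum_mulShift` for `m ≠ 0`;
`0` for `m = 0`).  `∑_c ps(A c²) = ∑_y (1 + χ₂(y)) ps(A y) = χ₂(A) g` (`quadraticChar_card_sqrts`), and
`A c² + B c = A (c + B/(2A))² - B²/(4A)`. -/
def GQ_stmt : Prop := ∀ (p : ℕ) [Fact p.Prime], p ≠ 2 → ∃ g : ℂ,
  g ^ 2 = ((quadraticChar (ZMod p) (-1) : ℤ) : ℂ) * p ∧
  (∀ A B : ZMod p, A ≠ 0 → ∑ c : ZMod p, ps (A * c ^ 2 + B * c) =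
    g * ((quadraticChar (ZMod p) A : ℤ) : ℂ) * ps (-(B ^ 2 / (4 * A)))) ∧
  (∀ m : ZMod p, ∑ h : ZMod p, ((quadraticChar (ZMod p) h : ℤ) : ℂ) * ps (m * h) =
    g * ((quadraticChar (ZMod p) m : ℤ) : ℂ))

/-- GF (medium; the fourfold Gauss sum).  Put `x₁ = u + x₄`, `x₂ = v + x₄`, `x₃ = w + x₄`:
`qq = (1-lam) u v - v w + lam u w`, the linear form is `a u + b v + c w + (a+b+c+d) x₄`; the sum over `x₄` gives `p` if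
`a+b+c+d = 0` and `0` otherwise.  The sum over `u` gives `p` if `h ((1-lam) v + lam w) + a = 0` and `0` otherwise:
`v = -(a/h + lam w)/(1-lam)`.  There remains `p² ∑_w ps(A w² + B w - a b/(h (1-lam)))`, `A = h lam/(1-lam)`,
`B = (a - lam b + (1-lam) c)/(1-lam) = (a + c - lam (b+c))/(1-lam)`, and
`B²/(4A) + a b/(h(1-lam)) = PX(a,b,c;lam)/(4 lam (1-lam) h)`. -/
def GF_stmt : Prop := ∀ (p : ℕ) [Fact p.Prime] (g : ℂ), p ≠ 2 →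
  (∀ A B : ZMod p, A ≠ 0 → ∑ c : ZMod p, ps (A * c ^ 2 + B * c) =
    g * ((quadraticChar (ZMod p) A : ℤ) : ℂ) * ps (-(B ^ 2 / (4 * A)))) →
  ∀ h lam a b c d : ZMod p, h ≠ 0 → lam ≠ 0 → lam ≠ 1 →
    ∑ x₁ : ZMod p, ∑ x₂ : ZMod p, ∑ x₃ : ZMod p, ∑ x₄ : ZMod p,
      ps (h * qq lam x₁ x₂ x₃ x₄ + (a * x₁ + b * x₂ + c * x₃ + d * x₄)) =
    if a + b + c + d = 0 then (p : ℂ) ^ 2 * (g * ((quadraticChar (ZMod p) (h * (lam / (1 - lam))) : ℤ) : ℂ) *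
      ps (-(PX a b c lam / (4 * lam * (1 - lam) * h)))) else 0

/-- DLF (medium; from PSI, WTF, GQ, GF; the exact formula).  `[qq = 0] = p⁻¹ ∑_h ps(h qq)`.  The term `h = 0` gives
`(∑ ψ)⁴/p = (p/T)⁴/p`.  For `h ≠ 0` insert `ψ(x_i) = ∑_(ξ_i) wt(ξ_i) ps(ξ_i x_i)` (WTF) and use GF with
`(a,b,c,d) = (ξ₁,ξ₂,ξ₃,ξ₄)`; only `d = -(a+b+c)` remains.  Sum over `h ≠ 0` (substitute `h ↦ h⁻¹`, `χ₂(h⁻¹) = χ₂(h)`,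
the term `h = 0` vanishes): `∑_h χ₂(h) ps(-m h) = g χ₂(-m)`, `m = PX/(4 lam (1-lam))`.  So the coefficient of `wq(a,b,c)` is
`p⁻¹ p² g² χ₂(lam/(1-lam)) χ₂(-PX/(4 lam (1-lam))) = p² χ₂(PX)`, as `g² = χ₂(-1) p` and
`lam/(1-lam) · 1/(4 lam (1-lam)) = (2 (1-lam))^(-2)` is a square.  (Real numbers; compute in `ℂ`, `exact_mod_cast`.) -/
def DLF_stmt : Prop := ∀ (p : ℕ) [Fact p.Prime] (T : ℕ), p ≠ 2 → 0 < T → T ≤ p →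
  ∀ lam : ZMod p, lam ≠ 0 → lam ≠ 1 → nn T lam - ((p : ℝ) / T) ^ 4 / p = DS T lam

/-! ### The second moment -/

/-- EXC (medium; exceptional pairs).  Write `A = b+c`, `B = a+c`, `A' = b'+c'`, `B' = a'+c'` (so `a' = B'-c'`,
`b' = A'-c'`, `4 a' b' = 4 (B'-c')(A'-c')`), `W = S + S`.  Case `A ≠ 0`: `κ = (A'/A)²`, and `B'² = κ B²` gives
`B' = ± B A'/A`; `A' ∈ W`; for given `A'` and sign the middle equation is a quadratic equation for `c'` with leading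
coefficient `4 ≠ 0`: at most `2` solutions, total `≤ 4 |W|`.  Case `A = 0`, `B ≠ 0`: `A'² = κ A² = 0`, `A' = 0`,
`κ = (B'/B)²`, `B' ∈ W`, again `≤ 2` solutions `c'`: `≤ 2 |W|`.  Case `A = B = 0`: `A' = B' = 0`, the triple is
`(-c', -c', c')`, `c' ∈ S`, and `|S| ≤ |W|`. -/
def EXC_stmt : Prop := ∀ (p : ℕ) [Fact p.Prime], p ≠ 2 → ∀ (S : Finset (ZMod p)) (a b c : ZMod p),
  (((S ×ˢ S) ×ˢ S).filter fun z => ∃ κ : ZMod p, κ ≠ 0 ∧ (z.1.2 + z.2) ^ 2 = κ * (b + c) ^ 2 ∧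
    4 * (z.1.1 * z.1.2) - 2 * ((z.1.1 + z.2) * (z.1.2 + z.2)) = κ * (4 * (a * b) - 2 * ((a + c) * (b + c))) ∧
    (z.1.1 + z.2) ^ 2 = κ * (a + c) ^ 2).card ≤ 4 * ((S ×ˢ S).image fun z => z.1 + z.2).card

/-- INN (short; from W2).  `PX a b c lam = (b+c)² lam² + (4 a b - 2 (a+c)(b+c)) lam + (a+c)²` with discriminant
`-16 a b c (a+b+c)`.  The exceptional cases of W2 are excluded by the hypotheses. -/
def INN_stmt : Prop := ∀ (p : ℕ) [Fact p.Prime], p ≠ 2 → ∀ a b c a' b' c' : ZMod p,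
  ¬ (a * b * c * (a + b + c) = 0 ∧ a' * b' * c' * (a' + b' + c') = 0) →
  (¬ ∃ κ : ZMod p, κ ≠ 0 ∧ (b' + c') ^ 2 = κ * (b + c) ^ 2 ∧
    4 * (a' * b') - 2 * ((a' + c') * (b' + c')) = κ * (4 * (a * b) - 2 * ((a + c) * (b + c))) ∧
    (a' + c') ^ 2 = κ * (a + c) ^ 2) →
    |∑ lam : ZMod p, ((quadraticChar (ZMod p) (PX a b c lam) : ℤ) : ℝ) *
      ((quadraticChar (ZMod p) (PX a' b' c' lam) : ℤ) : ℝ)| ≤ 4 * Real.sqrt p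

/-- SMD (medium; from WTF, EXC, INN).  `N₀ = p/T`.  `∑_lam DS² = p⁴ ∑ wq(a,b,c) wq(a',b',c') ∑_lam χ₂(PX) χ₂(PX')`.
`∑ wq ≤ 1/T` (`wt(-(a+b+c)) ≤ 1/T`, `∑ wt = 1`).  Pairs as in INN: `≤ p⁴ T⁻² 4 p^(1/2) = 4 N₀² p² p^(1/2)`.  Pairs with
`a b c (a+b+c) = 0` and the same for the second: `∑_(a b c (a+b+c) = 0) wq ≤ 4/T²` (e.g. `a = 0`:
`wt(0) ∑_(b,c) wt(b) wt(c) wt(-(b+c)) ≤ T⁻¹ T⁻¹`; `a+b+c = 0`: `wt(0) ∑ wt(a) wt(b) wt(-(a+b))`), inner sum `≤ p`: total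
`≤ 16 p⁵/T⁴ = 16 N₀⁴ p`.  Pairs with `κ`: for given `(a,b,c)` at most `4 · 4T` triples in the support (EXC with
`S = {wt ≠ 0}`, WTF (4)), each with `wq ≤ T⁻⁴`: total `≤ p⁴ T⁻¹ 16 T T⁻⁴ p = 16 N₀⁴ p`. -/
def SMD_stmt : Prop := ∀ (p : ℕ) [Fact p.Prime] (T : ℕ), p ≠ 2 → 0 < T → T ≤ p →
  ∑ lam : ZMod p, DS T lam ^ 2 ≤
    4 * ((p : ℝ) / T) ^ 2 * (p : ℝ) ^ 2 * Real.sqrt p + 32 * ((p : ℝ) / T) ^ 4 * p

/-- M4 (short-medium; from MF2, DLF, SMD).  `N₀ = p/T`.  Cauchy: `∑_(lam ≠ 0,1) |DS| ≤ p^(1/2) (∑ DS²)^(1/2) ≤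
p^(1/2) (2 N₀ p^(5/4) + 6 N₀² p^(1/2)) = 2 N₀ p^(7/4) + 6 N₀² p`; times `4 p`; add `100 N₀² p²`. -/
def M4_stmt : Prop := ∀ (p : ℕ) [Fact p.Prime] (χ : MulChar (ZMod p) ℂ) (T : ℕ), χ ≠ 1 → p ≠ 2 → 0 < T → T ≤ p →
  ∑ c : ZMod p, ∑ c' ∈ univ.filter (fun c' : ZMod p => c ≠ c'), ‖Tp χ T (some c) (some c')‖ ^ 4 ≤
    200 * (((p : ℝ) / T) ^ 2 * (p : ℝ) ^ 2 + (p : ℝ) / T * (p : ℝ) ^ (11 / 4 : ℝ))

end Pool.Agent.OT
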