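import Mathlib
import Pool.Agent.helper64.OT.SpecM

/-!
# Project OT (MP_f6e9a2_nt), blocks D and P: two bounds for `X_I = ∑_(n<N) |∑_(b ∈ B) β_b χ(n + b)|²`

Block D (`D1_stmt`, duality): if `B` meets `R` of the cells `[jN, (j+1)N)`, with parts `B_j`, then
`X_I ≤ C (N R |B| + (p R)^(1/2) ∑_j |B_j|²)`.
Block P (`P3_stmt`, fourth moment): `X_I ≤ C (N |B| + |B| (E_N(B) (N p² + p^(11/4)))^(1/4))`.

RULES.  As in `SpecM.lean`: import this file, namespace `Pool.Agent.OT`, `theorem X ... : X_stmt`, file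
`Pool/Agent/<seat>/OT/X.lean`.  `FB χ B β x = ∑_(b ∈ B) β b χ(x + b)`, `psi T x = |∑_(s<T) ps(s x)|²/T²`,
`ft B β t = ∑_(b ∈ B) β b ps(t b)` (`Pool.Agent.SPI.ft`).
-/

set_option autoImplicit false

namespace Pool.Agent.OT

open Finset Pool.Agent.SPI

/-- `∑_(j ∈ J) ps(r (j N))` -/
noncomputable def WJ {p : ℕ} [NeZero p] (N : ℕ) (J : Finset ℕ) (r : ZMod p) : ℂ :=
  ∑ j ∈ J, ps (r * ((j : ZMod p) * (N : ZMod p)))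

/-- `∑_j (∑_(s<T) w_s χ⁻¹(t-s) ps(-s (j N))) (∑_(b ∈ B_j) γ_b ps(t b))` -/
noncomputable def GN {p : ℕ} [NeZero p] (χ : MulChar (ZMod p) ℂ) (N T : ℕ) (B : Finset (ZMod p)) (w : ℕ → ℝ)
    (γ : ZMod p → ℂ) (t : ZMod p) : ℂ :=
  ∑ j ∈ cells N B, (∑ s ∈ range T, (w s : ℂ) * χ⁻¹ (t - (s : ZMod p)) *
    ps (-((s : ZMod p) * ((j : ZMod p) * (N : ZMod p))))) * ft (cell N B j) γ t

/-- `m(c, c') = #{y < N : c + y ∈ B, c' + y ∈ B}` -/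
def mm {p : ℕ} (N : ℕ) (B : Finset (ZMod p)) (c c' : ZMod p) : ℕ :=
  ((range N).filter fun y : ℕ => c + (y : ZMod p) ∈ B ∧ c' + (y : ZMod p) ∈ B).card

/-! ### Block D -/

/-- MAJ (short-medium).  The angles `2 π s x.val/p`, `0 ≤ s < T`, lie in `[0, π/4]`, so
`Re ∑_(s<T) ps(s x) ≥ T cos(π/4) = T/2^(1/2)` (`ps(s x) = exp(2 π i s x.val/p)`: `ZMod.stdAddChar_coe`,
`ZMod.natCast_zmod_val`), and the square of the modulus is at least `T²/2`. -/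
def MAJ_stmt : Prop := ∀ (p : ℕ) [Fact p.Prime] (T : ℕ) (x : ZMod p), 0 < T → 8 * T * x.val ≤ p →
  1 / 2 ≤ psi T x

/-- PGS (short-medium; Gauss sums and Plancherel; `GSI_stmt`, `PLN_stmt` are proved rows of project SPI, use them as
hypotheses).  `τ F(x) = ∑_t χ⁻¹(t) f(t) ps(t x)`, `f = ft B β`; multiply by `∑_(s<T) ps(s x)` and shift `t ↦ t - s`:
`τ ∑_s ps(s x) F(x) = ∑_t v(t) ps(t x)`, `v(t) = ∑_s χ⁻¹(t-s) f(t-s)`.  Plancherel (`PLN` with `A = univ`, `w = v`):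
`p ∑_x |∑_s ps(s x) F(x)|² = p ∑_t |v(t)|²`. -/
def PGS_stmt : Prop := ∀ (p : ℕ) [Fact p.Prime] (χ : MulChar (ZMod p) ℂ) (T : ℕ) (B : Finset (ZMod p))
  (β : ZMod p → ℂ), χ ≠ 1 → 0 < T →
    ∑ x : ZMod p, psi T x * ‖FB χ B β x‖ ^ 2 =
      (∑ t : ZMod p, ‖∑ s ∈ range T, χ⁻¹ (t - (s : ZMod p)) * ft B β (t - (s : ZMod p))‖ ^ 2) / (T : ℝ) ^ 2

/-- TAY (short-medium; abstract).  For every `K`, Cauchy-Schwarz: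
`|∑_(k<K) c_k G_k(t)|² ≤ (∑_(k<K) |c_k|) ∑_(k<K) |c_k| |G_k(t)|²`, so `∑_t |∑_(k<K) c_k G_k(t)|² ≤ e² M ≤ 8 M`
(`∑ 1/k! ≤ e`).  Let `K → ∞` (`HasSum.tendsto_sum_nat`, `le_of_tendsto'`; finite sum over `t`). -/
def TAY_stmt : Prop := ∀ (p : ℕ) [NeZero p] (c : ℕ → ℂ) (G : ℕ → ZMod p → ℂ) (H : ZMod p → ℂ) (M : ℝ),
  (∀ k, ‖c k‖ ≤ 1 / (k.factorial : ℝ)) → (∀ t, HasSum (fun k => c k * G k t) (H t)) → 0 ≤ M →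
  (∀ k, ∑ t : ZMod p, ‖G k t‖ ^ 2 ≤ M) → ∑ t : ZMod p, ‖H t‖ ^ 2 ≤ 8 * M

/-- EXP (medium; the expansion).  `B` is the disjoint union of `cell N B j`, `j ∈ cells N B`.  For `b` in the cell `j`:
`b.val = j N + m`, `m = b.val % N`, and `ps((t-s) b) = ps(t b) ps(-s (j N)) exp(-2 π i s m/p)` with
`exp(-2 π i s m/p) = ∑_k c_k (s/T)^k (m/N)^k`, `c_k = (-2 π i T N/p)^k/k!` (`NormedSpace.expSeries` or
`Complex.hasSum_exp...`; finite sums of `HasSum`). -/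
def EXP_stmt : Prop := ∀ (p : ℕ) [Fact p.Prime] (χ : MulChar (ZMod p) ℂ) (N T : ℕ) (B : Finset (ZMod p))
  (β : ZMod p → ℂ) (t : ZMod p), 0 < N → 0 < T →
    HasSum (fun k : ℕ => (-(2 * Real.pi * T * N / p : ℝ) * Complex.I) ^ k / (k.factorial : ℂ) *
      GN χ N T B (fun s => ((s : ℝ) / T) ^ k) (fun b => β b * ((((b.val % N : ℕ) : ℝ) / N : ℝ) : ℂ) ^ k) t)
      (∑ s ∈ range T, χ⁻¹ (t - (s : ZMod p)) * ft B β (t - (s : ZMod p)))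

/-- SPT (medium; the points `jN` are well spaced).  `|x| = x.valMinAbs.natAbs`.  `|∑_(s<L) ps(s x)| ≤ 2/|1 - ps(x)| =
1/|sin(π x/p)| ≤ p/(2|x|)` (geometric sum, Jordan's inequality `Real.mul_le_sin`), so with `L = 2T`:
`psi L (y - jN) ≤ min (1, p²/(16 T² |y-jN|²))`.  For every `k ≥ 0` at most `6` of the `j` (with `jN < p`) have
`kN ≤ |y - jN| < (k+1)N`: the signed representative is `y.val - jN + e p`, `e ∈ {-1,0,1}`, and for given `e` and sign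
there is at most one `j`.  So the sum is at most `6 (1 + ∑_(k≥1) p²/(16 T² k² N²)) ≤ 6 (1 + 16 · 2) ≤ 200`
(`p ≤ 16 N T`, `∑_(1≤k≤n) 1/k² ≤ 2`).  (`grep wf` in `Pool/Agent/helper95/PY2`: rows WSUM, LOW are of the same kind.) -/
def SPT_stmt : Prop := ∀ (p : ℕ) [Fact p.Prime] (N T : ℕ) (J : Finset ℕ) (y : ZMod p), 0 < N → 0 < T →
  8 * T * N ≤ p → p ≤ 16 * N * T → (∀ j ∈ J, j * N < p) →
    ∑ j ∈ J, psi (2 * T) (y - (j : ZMod p) * (N : ZMod p)) ≤ 200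

/-- LSV (medium; large sieve; from PSI WTF SPT PLN).  `L = 2T`, `G(y) = ∑_(j ∈ J) psi L (y - jN)`.  WTF:
`G(y) = ∑_r wt L r conj(WJ N J r) ps(r y)` (note `ps(-r (jN)) = conj ps(r (jN))`), Plancherel (`PLN`, `A = univ`):
`∑_y G(y)² = p ∑_r (wt L r)² |WJ N J r|²`.  For `r` the class of an integer with `|r| < T` (different classes, `2T ≤ p`):
`wt L r ≥ (L - |r|)/L² ≥ T/(4T²) = 1/(4T)` (the pairs `(s' + r, s')` or `(s, s - r)`).  So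
`∑_(|r|<T) |WJ|² ≤ 16 T² p⁻¹ ∑_y G² ≤ 16 T² p⁻¹ 200 ∑_y G = 16 T² p⁻¹ 200 |J| p/(2T) = 1600 T |J|`. -/
def LSV_stmt : Prop := ∀ (p : ℕ) [Fact p.Prime] (N T : ℕ) (J : Finset ℕ), 0 < N → 0 < T →
  8 * T * N ≤ p → p ≤ 16 * N * T → (∀ j ∈ J, j * N < p) →
    ∑ r ∈ Ioo (-(T : ℤ)) (T : ℤ), ‖WJ N J (r : ZMod p)‖ ^ 2 ≤ 1600 * T * J.card

/-- GNA (medium; Cauchy over the cells; from W1, PLN).  `R = |cells|`, `Φ_j(t) = ∑_s w_s χ⁻¹(t-s) ps(-s (jN))`,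
`β_j = ft (cell N B j) γ`.  `|GN(t)|² ≤ (∑_j |Φ_j(t)|²) (∑_j |β_j(t)|²)` (Cauchy).  Expand:
`∑_j |Φ_j(t)|² = ∑_(s,s') w_s w_s' χ⁻¹(t-s) conj χ⁻¹(t-s') WJ(s'-s)`, `WJ(r) = WJ N (cells N B) r`.
Terms `s = s'`: `|WJ(0)| = R`, at most `T R ∑_j ∑_t |β_j(t)|² ≤ T R p |B|` (PLN, `∑_j |B_j| = |B|`).
Terms `s ≠ s'`: `|β_j(t)|² = ∑_(b,b' ∈ B_j) γ_b conj γ_b' ps(t (b-b'))`, and
`|∑_t ps(t (b-b')) χ⁻¹(t-s) conj χ⁻¹(t-s')| ≤ 4 p^(1/2)` by W1 (`χ⁻¹ = conj χ`, substitute `t ↦ t + s`, `r = s - s' ≠ 0`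
as `|s-s'| < T < p`): total `≤ 4 p^(1/2) ∑_(s,s') |WJ(s'-s)| ∑_j |B_j|²`. -/
def GNA_stmt : Prop := ∀ (p : ℕ) [Fact p.Prime] (χ : MulChar (ZMod p) ℂ) (N T : ℕ) (B : Finset (ZMod p))
  (w : ℕ → ℝ) (γ : ZMod p → ℂ), χ ≠ 1 → 0 < N → 0 < T → T < p → (∀ s, 0 ≤ w s ∧ w s ≤ 1) → (∀ b, ‖γ b‖ ≤ 1) →
    ∑ t : ZMod p, ‖GN χ N T B w γ t‖ ^ 2 ≤ T * (cells N B).card * p * B.card +
      4 * Real.sqrt p * (∑ s ∈ range T, ∑ s' ∈ range T, ‖WJ N (cells N B) ((s' : ZMod p) - (s : ZMod p))‖) *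
        ∑ j ∈ cells N B, ((cell N B j).card : ℝ) ^ 2

/-- GNB (short-medium; from GNA, LSV).  `∑_(s,s'<T) |WJ(s'-s)| ≤ T ∑_(|r|<T) |WJ(r)|` (each `r = s'-s` has at most `T`
pairs) `≤ T (2T)^(1/2) (1600 T R)^(1/2) ≤ 57 T² R^(1/2)` (Cauchy, LSV with `J = cells N B`: `j N ≤ b.val < p`). -/
def GNB_stmt : Prop := ∀ (p : ℕ) [Fact p.Prime] (χ : MulChar (ZMod p) ℂ) (N T : ℕ) (B : Finset (ZMod p))
  (w : ℕ → ℝ) (γ : ZMod p → ℂ), χ ≠ 1 → 0 < N → 0 < T → 8 * T * N ≤ p → p ≤ 16 * N * T →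
  (∀ s, 0 ≤ w s ∧ w s ≤ 1) → (∀ b, ‖γ b‖ ≤ 1) →
    ∑ t : ZMod p, ‖GN χ N T B w γ t‖ ^ 2 ≤ T * (cells N B).card * p * B.card +
      300 * Real.sqrt p * (T : ℝ) ^ 2 * Real.sqrt (cells N B).card *
        ∑ j ∈ cells N B, ((cell N B j).card : ℝ) ^ 2

/-- D1 (medium; from MAJ PGS TAY EXP GNB; the duality bound).  `T = ⌊p/(8N)⌋ ≥ 1`: `8 T N ≤ p ≤ 16 N T`.  MAJ for
`x = n < N` (`x.val = n`): `X_I ≤ 2 ∑_x psi T x |F(x)|²`; PGS; TAY with EXP, `|c_k| ≤ (2 π T N/p)^k/k! ≤ 1/k!`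
(`2 π T N/p ≤ 2π/8 < 1`), `|w_s| ≤ 1`, `|γ_b| ≤ 1`, and `M` the bound of GNB:
`X_I ≤ 2 T⁻² 8 M = 16 ((p/T) R |B| + 300 (p R)^(1/2) ∑_j |B_j|²)`, `p/T ≤ 16 N`. -/
def D1_stmt : Prop := ∀ (p : ℕ) [Fact p.Prime] (χ : MulChar (ZMod p) ℂ) (N : ℕ) (B : Finset (ZMod p))
  (β : ZMod p → ℂ), χ ≠ 1 → 0 < N → 8 * N ≤ p → (∀ b, ‖β b‖ ≤ 1) →
    ∑ n ∈ range N, ‖FB χ B β (n : ZMod p)‖ ^ 2 ≤
      5000 * ((N : ℝ) * (cells N B).card * B.card +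
        Real.sqrt (p * (cells N B).card) * ∑ j ∈ cells N B, ((cell N B j).card : ℝ) ^ 2)

/-! ### Block P -/

/-- PC1 (medium; from MAJ).  `16 N T ≤ p`.  For `n, y < N`: `psi T (n + y) ≥ 1/2` (MAJ, `(n+y : ZMod p).val = n + y < 2N`),
so `X_I ≤ (2/N) ∑_(y<N) ∑_x psi T (x+y) |F(x)|²`.  Expand `|F|²` and substitute `x ↦ x - y`:
`∑_x psi T (x+y) |F(x)|² = ∑_(b,b' ∈ B) β_b conj β_b' Tp χ T (some (b-y)) (some (b'-y))`.  The terms `b = b'` have modulus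
`≤ ∑ psi = p/T` (PSI; total `2 (p/T) |B|`); the others are grouped by `(c, c') = (b-y, b'-y)`, `c ≠ c'`: for given
`(c,c')` the number of `(y, b, b')` is `mm N B c c'`. -/
def PC1_stmt : Prop := ∀ (p : ℕ) [Fact p.Prime] (χ : MulChar (ZMod p) ℂ) (N T : ℕ) (B : Finset (ZMod p))
  (β : ZMod p → ℂ), 0 < N → 0 < T → 16 * N * T ≤ p → (∀ b, ‖β b‖ ≤ 1) →
    ∑ n ∈ range N, ‖FB χ B β (n : ZMod p)‖ ^ 2 ≤ 2 * ((p : ℝ) / T) * B.card +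
      2 / (N : ℝ) * ∑ c : ZMod p, ∑ c' ∈ univ.filter (fun c' : ZMod p => c ≠ c'),
        ‖Tp χ T (some c) (some c')‖ * mm N B c c'

/-- PC2 (medium; counting).  `∑_(c,c') mm = N |B|²` (for given `y`: `c = b - y`, `c' = b' - y`).
`∑_(c,c') mm² = #{(y,y',c,c') : y,y' < N, c+y, c'+y, c+y', c'+y' ∈ B}`; map to `(b₁,b₂,b₃,b₄) = (c+y, c'+y, c+y', c'+y')`:
`b₁ - b₂ = b₃ - b₄`, `b₁ - b₃ = y - y'`, `|valMinAbs (y-y')| ≤ |y-y'| < N`; for given `(b_i)` and `y` the others are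
determined (`y' ≡ y - (b₁-b₃)`, `y' < N ≤ p`), so every fibre has at most `N` elements. -/
def PC2_stmt : Prop := ∀ (p : ℕ) [Fact p.Prime] (N : ℕ) (B : Finset (ZMod p)), 0 < N → N ≤ p →
  ∑ c : ZMod p, ∑ c' : ZMod p, (mm N B c c' : ℝ) ≤ N * (B.card : ℝ) ^ 2 ∧
  ∑ c : ZMod p, ∑ c' : ZMod p, (mm N B c c' : ℝ) ^ 2 ≤ N * (EN N B : ℝ)

/-- PC3 (short; twice Cauchy-Schwarz).  `(∑ f m)² ≤ (∑ f² m)(∑ m)` and `(∑ f² m)² ≤ (∑ f⁴)(∑ m²)`. -/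
def PC3_stmt : Prop := ∀ (ι : Type) (s : Finset ι) (f m : ι → ℝ), (∀ i ∈ s, 0 ≤ f i) → (∀ i ∈ s, 0 ≤ m i) →
  (∑ i ∈ s, f i * m i) ^ 4 ≤ (∑ i ∈ s, f i ^ 4) * (∑ i ∈ s, m i ^ 2) * (∑ i ∈ s, m i) ^ 2

/-- P3 (medium; from M4 PC1 PC2 PC3).  `T = ⌊p/(16N)⌋ ≥ 1`, so `16 N T ≤ p` and `N₀ = p/T ≤ 32 N`.  M4, PC2, PC3 (for the
pairs `c ≠ c'`, as a sum over `univ ×ˢ univ` or a sigma type):
`(∑ |Tp| mm)⁴ ≤ 200 (N₀² p² + N₀ p^(11/4)) (N E) (N |B|²)² ≤ 200 · 1024 N⁴ |B|⁴ E (N p² + p^(11/4))`, fourth root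
`≤ 22 N |B| (E (N p² + p^(11/4)))^(1/4)`. -/
def P3_stmt : Prop := ∀ (p : ℕ) [Fact p.Prime] (χ : MulChar (ZMod p) ℂ) (N : ℕ) (B : Finset (ZMod p))
  (β : ZMod p → ℂ), χ ≠ 1 → p ≠ 2 → 0 < N → 16 * N ≤ p → (∀ b, ‖β b‖ ≤ 1) →
    ∑ n ∈ range N, ‖FB χ B β (n : ZMod p)‖ ^ 2 ≤
      100 * ((N : ℝ) * B.card + B.card *
        ((EN N B : ℝ) * ((N : ℝ) * (p : ℝ) ^ 2 + (p : ℝ) ^ (11 / 4 : ℝ))) ^ (1 / 4 : ℝ))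

end Pool.Agent.OT
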