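import Mathlib
import Pool.Agent.helper64.OT.SpecD
import Pool.Agent.helper47.SPI.Fin

/-!
# Project OT (MP_f6e9a2_nt), block F: assembly

The theorem: `OTF_stmt` (end of the file).  `FB χ B β x = ∑_(b ∈ B) β b χ(x + b)`.  All rows are about
`S = ∑_(x ∈ X) |FB χ B β x|` and bounds `S ≤ p^(-c) ((p |X| |B|)^(1/2) + |X| |B|)`.

RULES.  As in `SpecM.lean`: import this file, namespace `Pool.Agent.OT`, `theorem X ... : X_stmt`, file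
`Pool/Agent/<seat>/OT/X.lean`.  Proved results of project SPI may be cited: `Pool.Agent.SPI.p_COV`,
`Pool.Agent.SPI.p_FIT`.  For `large p` arguments: `p^(c)` tends to infinity, compare `FIN_large` in
`Pool/Agent/helper78/SPI/FIN.lean` and the file `Pool/Agent/helper90/SPI/BDS.lean`.
-/

set_option autoImplicit false

namespace Pool.Agent.OT

open Finset Pool.Agent.SPI
open scoped Pointwise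

/-! ### Large sets and reductions -/

/-- WMO (short-medium; the `2k`-th moment with weights).  Copy `moment_one` (`Pool/Agent/helper82/Weil/M.lean`) with the
weights: `|FB(u)|^(2k) = ∑_(x,y) (∏ β(x_i) conj β(y_i)) (∏ χ(x_i+u)) conj (∏ χ(y_i+u))`, so the moment is at most
`∑_(x,y) |ZZ χ x y|`, bounded by `sum_ZZ_pow χ hχ k 1 B`. -/
def WMO_stmt : Prop := ∀ (p : ℕ) [Fact p.Prime] (χ : MulChar (ZMod p) ℂ) (k : ℕ) (B : Finset (ZMod p))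
  (β : ZMod p → ℂ), χ ≠ 1 → (∀ b, ‖β b‖ ≤ 1) →
    ∑ u : ZMod p, ‖FB χ B β u‖ ^ (2 * k) ≤
      (k : ℝ) ^ (2 * k) * (B.card : ℝ) ^ k * p + (B.card : ℝ) ^ (2 * k) * (2 * k * Real.sqrt p)

/-- KAR (medium; from WMO; Karatsuba's bound, both ways).  `k = ⌈1/ε⌉ ≥ 1`, so `|B|^k, |X|^k ≥ p`.  First case
`|X| ≥ p^(1/2+ε)`: power mean inequality (`Real.pow_sum_div_card_le_sum_pow` or `inner_le_nnorm_mul_nnorm`) and WMO: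
`S^(2k) ≤ |X|^(2k-1) (k^(2k) |B|^k p + 2 k |B|^(2k) p^(1/2)) ≤ (|X| |B|)^(2k) (k^(2k) + 2k) p^(-ε)`, so
`S ≤ p^(-ε/(4k)) |X| |B|` for large `p`.  Second case `|B| ≥ p^(1/2+ε)`: with phases `|α_x| ≤ 1`,
`S = ∑_x α_x ∑_b β_b χ(x+b) ≤ ∑_(b ∈ B) |FB χ X α b|`, and the first case with `X`, `B` exchanged. -/
def KAR_stmt : Prop := ∀ ε : ℝ, 0 < ε → ∃ (c : ℝ) (p₀ : ℕ), 0 < c ∧ ∀ (p : ℕ) [Fact p.Prime], p₀ < p →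
  ∀ (χ : MulChar (ZMod p) ℂ) (X B : Finset (ZMod p)) (β : ZMod p → ℂ), χ ≠ 1 → (∀ b, ‖β b‖ ≤ 1) →
    (p : ℝ) ^ ε ≤ X.card → (p : ℝ) ^ ε ≤ B.card →
    ((p : ℝ) ^ (1 / 2 + ε) ≤ X.card ∨ (p : ℝ) ^ (1 / 2 + ε) ≤ B.card) →
      ∑ x ∈ X, ‖FB χ B β x‖ ≤ (p : ℝ) ^ (-c) * (X.card * B.card)

/-- SIZ (medium; from KAR; only sets of size about `p^(1/2)` matter).  `e = min ε c₀ / 2`, `c₁` from KAR for `e`,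
`c = min c₁ (e/4)`.  If `|X| |B| < p^(1-2c)`: `S ≤ |X| |B| ≤ p^(1/2-c) (|X| |B|)^(1/2)`: first alternative.  Otherwise
`|X| ≤ p^(1-ε)` gives `|B| ≥ p^(ε-2c) ≥ p^e`, and `|B| ≤ p^(1-ε)` or `p^ε ≤ |X|` gives `|X| ≥ p^e`.  If `|X|` or `|B|` is
`≥ p^(1/2+e)`: KAR.  Otherwise both are `< p^(1/2+e) ≤ p^(1/2+c₀)` and `≥ p^(1-2c-1/2-e) ≥ p^(1/2-c₀)`. -/
def SIZ_stmt : Prop := ∀ ε c₀ : ℝ, 0 < ε → 0 < c₀ → ∃ (c : ℝ) (p₀ : ℕ), 0 < c ∧ ∀ (p : ℕ) [Fact p.Prime], p₀ < p →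
  ∀ (χ : MulChar (ZMod p) ℂ) (X B : Finset (ZMod p)), χ ≠ 1 → (X.card : ℝ) ≤ (p : ℝ) ^ (1 - ε) →
    ((B.card : ℝ) ≤ (p : ℝ) ^ (1 - ε) ∨ (p : ℝ) ^ ε ≤ X.card) →
      (∀ β : ZMod p → ℂ, (∀ b, ‖β b‖ ≤ 1) → ∑ x ∈ X, ‖FB χ B β x‖ ≤
        (p : ℝ) ^ (-c) * (Real.sqrt (p * (X.card * B.card)) + X.card * B.card)) ∨
      ((p : ℝ) ^ (1 / 2 - c₀) ≤ X.card ∧ (X.card : ℝ) ≤ (p : ℝ) ^ (1 / 2 + c₀) ∧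
        (p : ℝ) ^ (1 / 2 - c₀) ≤ B.card ∧ (B.card : ℝ) ≤ (p : ℝ) ^ (1 / 2 + c₀))

/-- MED (medium; from SIZ; what has to be proved).  SIZ with `c₀ = κ/8`.  First alternative: done.  Second: Cauchy,
`S² ≤ |X| ∑_(x ∈ X) |FB(x)|² ≤ |X| ∑_(n<N) |FB(n)|²` (`x = (x.val : ZMod p)`, `x.val < N`, injective) `≤
10^6 p^(1/2-κ) |X| |B|² ≤ 10^6 p^(κ/8-κ) |X|² |B|²` (`|X| ≥ p^(1/2-κ/8)`), so `S ≤ 10³ p^(-7κ/16) |X| |B| ≤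
p^(-κ/4) |X| |B|` for large `p`. -/
def MED_stmt : Prop := ∀ ε κ : ℝ, 0 < ε → 0 < κ → ∃ (c : ℝ) (p₀ : ℕ), 0 < c ∧ ∀ (p : ℕ) [Fact p.Prime], p₀ < p →
  ∀ (χ : MulChar (ZMod p) ℂ) (N : ℕ) (X B : Finset (ZMod p)) (β : ZMod p → ℂ), χ ≠ 1 → (∀ b, ‖β b‖ ≤ 1) →
    (∀ x ∈ X, x.val < N) → (X.card : ℝ) ≤ (p : ℝ) ^ (1 - ε) →
    ((B.card : ℝ) ≤ (p : ℝ) ^ (1 - ε) ∨ (p : ℝ) ^ ε ≤ X.card) →
    ((p : ℝ) ^ (1 / 2 - κ / 8) ≤ B.card → (B.card : ℝ) ≤ (p : ℝ) ^ (1 / 2 + κ / 8) →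
      ∑ n ∈ range N, ‖FB χ B β (n : ZMod p)‖ ^ 2 ≤ 10 ^ 6 * (p : ℝ) ^ (1 / 2 - κ) * (B.card : ℝ) ^ 2) →
      ∑ x ∈ X, ‖FB χ B β x‖ ≤ (p : ℝ) ^ (-c) * (Real.sqrt (p * (X.card * B.card)) + X.card * B.card)

/-! ### The three cores: `X` in `[0, N)` -/

/-- UNI (medium; from MED, D1 and `Pool.Agent.SPI.p_COV`; cells of about the same size).  `δ₁` = the `δ` of `p_COV` for
`η = ε`; `R = |cells N B|`; `B` nonempty (otherwise `S = 0`), so `R ≥ 1`, `N ≤ N R ≤ p^(1-ε)`.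
If `R ≤ p^(δ₁)`: `p_COV` with `X := {0}`, `Y := {(j N : ZMod p) : j ∈ cells N B}`, `v = w = 1` (`b = j N + b.val % N`).
If `R > p^(δ₁)`: `κ = min ε δ₁ / 2` in MED (`|X| ≤ N`, `|B| ≤ N R ≤ p^(1-ε)`).  D1 (`8 N ≤ p` for large `p`):
`∑_j |B_j|² ≤ 2 M |B|` and `M R ≤ |B|`, so `(p R)^(1/2) ∑_j |B_j|² ≤ 2 p^(1/2) R^(-1/2) |B|² ≤ 2 p^(1/2-κ) |B|²`; and
`N R |B| ≤ p^(1-ε) |B| ≤ p^(1-ε) |B|² p^(κ/8-1/2) ≤ p^(1/2-κ) |B|²` (`κ + κ/8 ≤ ε`); `5000 · 3 ≤ 10^6`. -/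
def UNI_stmt : Prop := ∀ ε : ℝ, 0 < ε → ∃ (c : ℝ) (p₀ : ℕ), 0 < c ∧ ∀ (p : ℕ) [Fact p.Prime], p₀ < p →
  ∀ (χ : MulChar (ZMod p) ℂ) (N M : ℕ) (X B : Finset (ZMod p)) (β : ZMod p → ℂ), χ ≠ 1 → (∀ b, ‖β b‖ ≤ 1) →
    0 < N → (∀ x ∈ X, x.val < N) → (N : ℝ) * (cells N B).card ≤ (p : ℝ) ^ (1 - ε) →
    (∀ j ∈ cells N B, M ≤ (cell N B j).card ∧ (cell N B j).card ≤ 2 * M) →
      ∑ x ∈ X, ‖FB χ B β x‖ ≤ (p : ℝ) ^ (-c) * (Real.sqrt (p * (X.card * B.card)) + X.card * B.card)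

/-- DYA (short-medium; dyadic classes).  `P i = {b ∈ B : 2^i ≤ |cell N B (b.val/N)| < 2^(i+1)}` for
`i < n = Nat.log 2 p + 1` (`1 ≤ |cell| ≤ p`).  `cells N (P i) ⊆ cells N B` and `cell N (P i) j = cell N B j` for
`j ∈ cells N (P i)`. -/
def DYA_stmt : Prop := ∀ (p : ℕ) [Fact p.Prime] (N : ℕ) (B : Finset (ZMod p)),
  ∃ P : ℕ → Finset (ZMod p), (∀ i, P i ⊆ B) ∧
    (∀ f : ZMod p → ℂ, ∑ b ∈ B, f b = ∑ i ∈ range (Nat.log 2 p + 1), ∑ b ∈ P i, f b) ∧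
    ∀ i, cells N (P i) ⊆ cells N B ∧
      ∀ j ∈ cells N (P i), 2 ^ i ≤ (cell N (P i) j).card ∧ (cell N (P i) j).card ≤ 2 * 2 ^ i

/-- COB (short-medium; from UNI, DYA; core (b)).  `S(B) ≤ ∑_i S(P i) ≤ (log₂ p + 1) p^(-c) (...)`, monotone in `|B|`;
`log₂ p + 1 ≤ p^(c/2)` for large `p`. -/
def COB_stmt : Prop := ∀ ε : ℝ, 0 < ε → ∃ (c : ℝ) (p₀ : ℕ), 0 < c ∧ ∀ (p : ℕ) [Fact p.Prime], p₀ < p →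
  ∀ (χ : MulChar (ZMod p) ℂ) (N : ℕ) (X B : Finset (ZMod p)) (β : ZMod p → ℂ), χ ≠ 1 → (∀ b, ‖β b‖ ≤ 1) →
    0 < N → (∀ x ∈ X, x.val < N) → (N : ℝ) * (cells N B).card ≤ (p : ℝ) ^ (1 - ε) →
      ∑ x ∈ X, ‖FB χ B β x‖ ≤ (p : ℝ) ^ (-c) * (Real.sqrt (p * (X.card * B.card)) + X.card * B.card)

/-- COC (medium; from MED, P3; core (c)).  We may assume `ε ≤ 1`.  `κ = ε/4` in MED (`|X| ≤ N ≤ p^(1-ε)`).  P3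
(`16 N ≤ p` for large `p`; `p ≠ 2`): `E (N p² + p^(11/4)) = p² (N + p^(3/4)) E ≤ p^(2-ε) |B|⁴`, fourth root
`≤ p^(1/2-ε/4) |B|`; and `N |B| ≤ p^(1-ε) |B|² p^(κ/8-1/2) ≤ p^(1/2-κ) |B|²`. -/
def COC_stmt : Prop := ∀ ε : ℝ, 0 < ε → ∃ (c : ℝ) (p₀ : ℕ), 0 < c ∧ ∀ (p : ℕ) [Fact p.Prime], p₀ < p →
  ∀ (χ : MulChar (ZMod p) ℂ) (N : ℕ) (X B : Finset (ZMod p)) (β : ZMod p → ℂ), χ ≠ 1 → (∀ b, ‖β b‖ ≤ 1) →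
    0 < N → (N : ℝ) ≤ (p : ℝ) ^ (1 - ε) → (∀ x ∈ X, x.val < N) →
    ((B.card : ℝ) ≤ (p : ℝ) ^ (1 - ε) ∨ (p : ℝ) ^ ε ≤ X.card) →
    ((N : ℝ) + (p : ℝ) ^ (3 / 4 : ℝ)) * (EN N B : ℝ) ≤ (p : ℝ) ^ (-ε) * (B.card : ℝ) ^ 4 →
      ∑ x ∈ X, ‖FB χ B β x‖ ≤ (p : ℝ) ^ (-c) * (Real.sqrt (p * (X.card * B.card)) + X.card * B.card)

/-- ENL (medium; energy of a set with small cells).  Choose `b₁, b₂ ∈ B`; `b₃` lies at distance `< N` from `b₁`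
(`b₃ = b₁ - v` with `|v| < N`, `v = valMinAbs`): an arc of `2N - 1` consecutive classes, which meets at most `4` cells
(at most `3` without wrap around; the last cell before `p` may be incomplete), so at most `4 m` choices; `b₄` is then
determined. -/
def ENL_stmt : Prop := ∀ (p : ℕ) [Fact p.Prime] (N m : ℕ) (B : Finset (ZMod p)), 0 < N → N ≤ p →
  (∀ j ∈ cells N B, (cell N B j).card ≤ m) → EN N B ≤ 4 * m * B.card ^ 2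

/-- COA (medium-long, numeric; from SIZ, MED, P3, ENL, COB; core (a)).  We may assume `ε ≤ 1/2`.  `c₁ = ε/4`,
`κ = c₁/5`, `c₀ = κ/8`.  SIZ with `c₀`: first alternative done.  Second alternative: let `L` be the part of `B` in the
cells with `|cell N B j| ≤ m = ⌊p^(1/4-c₁)⌋`, `H` the rest; `S(B) ≤ S(L) + S(H)`.
`H`: every cell of `H` has more than `p^(1/4-c₁)` elements (integers: `> m` means `> p^(1/4-c₁)`), so `|cells N H| ≤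
|B| p^(c₁-1/4) ≤ p^(1/4+c₁+c₀)` and `N |cells N H| ≤ p^(1-ε+c₁+c₀) ≤ p^(1-ε/2)`: COB with `ε/2`.
`L`: MED with `κ`, `B := L`.  Suppose `p^(1/2-κ/8) ≤ |L| ≤ p^(1/2+κ/8)`.  ENL: `E ≤ 4 p^(1/4-c₁) |L|²`;
`N p² + p^(11/4) ≤ 2 p^(11/4)`; P3: the fourth root is at most `(8 p^(3-c₁) |L|²)^(1/4) ≤ 2 p^(3/4-c₁/4) |L|^(1/2) ≤
2 p^(3/4-c₁/4) |L| p^(-1/4+κ/16) ≤ 2 p^(1/2-κ) |L|` (`c₁/4 - κ/16 ≥ κ`), and `N |L| ≤ p^(3/4) |L| ≤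
p^(3/4-1/2+κ/8) |L|² ≤ p^(1/2-κ) |L|²`.  Add the two bounds (monotone in `|L|, |H| ≤ |B|`; `2 ≤ p^(c/2)`). -/
def COA_stmt : Prop := ∀ ε : ℝ, 0 < ε → ∃ (c : ℝ) (p₀ : ℕ), 0 < c ∧ ∀ (p : ℕ) [Fact p.Prime], p₀ < p →
  ∀ (χ : MulChar (ZMod p) ℂ) (N : ℕ) (X B : Finset (ZMod p)) (β : ZMod p → ℂ), χ ≠ 1 → (∀ b, ‖β b‖ ≤ 1) →
    0 < N → (N : ℝ) ≤ (p : ℝ) ^ (3 / 4 - ε) → (∀ x ∈ X, x.val < N) →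
    ((B.card : ℝ) ≤ (p : ℝ) ^ (1 - ε) ∨ (p : ℝ) ^ ε ≤ X.card) →
      ∑ x ∈ X, ‖FB χ B β x‖ ≤ (p : ℝ) ^ (-c) * (Real.sqrt (p * (X.card * B.card)) + X.card * B.card)

/-! ### Translates, Moebius maps -/

/-- TRZ (short-medium; translates).  `X_z = {x ∈ X : (x - z).val < N}` covers `X` (`n < N ≤ p` gives
`(n : ZMod p).val = n`).  `∑_(x ∈ X) ≤ ∑_(z ∈ Z) ∑_(x ∈ X_z)` (terms `≥ 0`); put `x = z + x'`, `X' = X_z - z`,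
`B = {z - y : y ∈ Y}`, `β'(b) = β(z - b)`: `∑_y β_y χ(x - y) = FB χ B β' x'`. -/
def TRZ_stmt : Prop := ∀ (p : ℕ) [Fact p.Prime] (χ : MulChar (ZMod p) ℂ) (N : ℕ) (X Y Z : Finset (ZMod p))
  (β : ZMod p → ℂ) (V : ℝ), N ≤ p → (∀ b, ‖β b‖ ≤ 1) → (∀ x ∈ X, ∃ z ∈ Z, ∃ n : ℕ, n < N ∧ x = z + (n : ZMod p)) →
  (∀ z ∈ Z, ∀ X' : Finset (ZMod p), X'.card ≤ X.card → (∀ x ∈ X', x.val < N) → ∀ β' : ZMod p → ℂ,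
    (∀ b, ‖β' b‖ ≤ 1) → ∑ x ∈ X', ‖FB χ (Y.image fun y => z - y) β' x‖ ≤ V) →
    ∑ x ∈ X, ‖∑ y ∈ Y, β y * χ (x - y)‖ ≤ Z.card * V

/-- CLW (medium; the cells of a translate).  `z - y = (z - w) - n`, `0 ≤ n < N`: for given `w` an arc of `N` consecutive
classes, which meets at most `3` cells (`2` without wrap around; the last cell may be incomplete). -/
def CLW_stmt : Prop := ∀ (p : ℕ) [Fact p.Prime] (N : ℕ) (Y W : Finset (ZMod p)) (z : ZMod p), 0 < N → N ≤ p →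
  (∀ y ∈ Y, ∃ w ∈ W, ∃ n : ℕ, n < N ∧ y = w + (n : ZMod p)) →
    (cells N (Y.image fun y => z - y)).card ≤ 3 * W.card

/-- ENI (short).  The map `y ↦ z - y` is injective; `(z-b₁) - (z-b₂) = (z-b₃) - (z-b₄)` iff `b₁ - b₂ = b₃ - b₄`, and
`(z-b₁) - (z-b₃) = -(b₁ - b₃)`, `|valMinAbs (-v)| = |valMinAbs v|` (`ZMod.natAbs_valMinAbs_neg`). -/
def ENI_stmt : Prop := ∀ (p : ℕ) [Fact p.Prime] (N : ℕ) (Y : Finset (ZMod p)) (z : ZMod p),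
  EN N (Y.image fun y => z - y) = EN N Y ∧ (Y.image fun y => z - y).card = Y.card

/-- the hypothesis on the pair `X`, `Y`: `X` in the translates `z + {0,..,N-1}`, `z ∈ Z`, and one of (a), (b), (c) -/
def HypN (p : ℕ) (ε : ℝ) (N : ℕ) (X Y Z W : Finset (ZMod p)) : Prop :=
  (N : ℝ) ≤ (p : ℝ) ^ (1 - ε) ∧ (∀ x ∈ X, ∃ z ∈ Z, ∃ n : ℕ, n < N ∧ x = z + (n : ZMod p)) ∧
  (((Y.card : ℝ) ≤ (p : ℝ) ^ (1 - ε) ∨ (p : ℝ) ^ ε ≤ X.card) ∧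
      ((N : ℝ) ≤ (p : ℝ) ^ (3 / 4 - ε) ∨
        ((N : ℝ) + (p : ℝ) ^ (3 / 4 : ℝ)) * (EN N Y : ℝ) ≤ (p : ℝ) ^ (-ε) * (Y.card : ℝ) ^ 4) ∨
    ((N : ℝ) * W.card ≤ (p : ℝ) ^ (1 - ε) ∧ ∀ y ∈ Y, ∃ w ∈ W, ∃ n : ℕ, n < N ∧ y = w + (n : ZMod p)))

/-- the hypothesis (d): `X ⊆ Z + H₁`, `Y ⊆ W + H₂` with thin sets of small doubling -/
def HypH (p : ℕ) (ε K δ : ℝ) (X Y Z W H₁ H₂ : Finset (ZMod p)) : Prop :=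
  (W.card : ℝ) ≤ (p : ℝ) ^ δ ∧ ((H₁ + H₁).card : ℝ) ≤ K * (H₁.card : ℝ) ∧
  ((H₂ + H₂).card : ℝ) ≤ K * (H₂.card : ℝ) ∧ (H₁.card : ℝ) ≤ (p : ℝ) ^ (1 - ε) ∧
  (H₂.card : ℝ) ≤ (p : ℝ) ^ (1 - ε) ∧ X ⊆ Z + H₁ ∧ Y ⊆ W + H₂

/-- TRS (medium; from COA COB COC TRZ CLW ENI).  `V = p^(-c) ((p |X| |Y|)^(1/2) + |X| |Y|)`, TRZ; it is enough to bound
every `∑_(x ∈ X') |FB χ B β' x| ≤ V`, `B = {z - y}`, `|B| = |Y|` (ENI); then `|Z| V ≤ p^(δ-c) (...)`, `δ ≤ c/2`.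
`N = 0`: `X` is empty.  (b): CLW: `N |cells N B| ≤ 3 p^(1-ε) ≤ p^(1-ε/2)`: COB with `ε/2`.  (a), (c): if `|X'| < p^(ε/2)` and
`|Y| > p^(1-ε)`, then `p^ε ≤ |X|` and `S ≤ |X'| |Y| ≤ p^(-ε/2) |X| |Y|`; otherwise COA / COC with `ε/2` (`|Y| ≤ p^(1-ε)` or
`p^(ε/2) ≤ |X'|`), `EN N B = EN N Y` (ENI). -/
def TRS_stmt : Prop := ∀ ε : ℝ, 0 < ε → ∃ (δ : ℝ) (p₀ : ℕ), 0 < δ ∧ ∀ (p : ℕ) [Fact p.Prime], p₀ < p →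
  ∀ (χ : MulChar (ZMod p) ℂ) (N : ℕ) (X Y Z W : Finset (ZMod p)) (β : ZMod p → ℂ), χ ≠ 1 → (∀ b, ‖β b‖ ≤ 1) →
    (Z.card : ℝ) ≤ (p : ℝ) ^ δ → HypN p ε N X Y Z W →
      ∑ x ∈ X, ‖∑ y ∈ Y, β y * χ (x - y)‖ ≤
        (p : ℝ) ^ (-δ) * (Real.sqrt (p * (X.card * Y.card)) + X.card * Y.card)

/-- OLD (short-medium; from `Pool.Agent.SPI.p_FIT`; alternative (d)).  Phases `|α_x| ≤ 1` with
`∑_(x ∈ X) |∑_y β_y χ(x-y)| = ∑_x ∑_y α_x β_y χ(x - y)`; `p_FIT K ε` with `A := X`, `B := {-y : y ∈ Y}`, `X := Z`,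
`Y := {-w : w ∈ W}`, `H₁`, `H₂ := {-h : h ∈ H₂}` (`|-H₂ + -H₂| = |H₂ + H₂|`). -/
def OLD_stmt : Prop := ∀ K ε : ℝ, 0 < ε → ∃ (δ : ℝ) (p₀ : ℕ), 0 < δ ∧ ∀ (p : ℕ) [Fact p.Prime], p₀ < p →
  ∀ (χ : MulChar (ZMod p) ℂ) (X Y Z W H₁ H₂ : Finset (ZMod p)) (β : ZMod p → ℂ), χ ≠ 1 → (∀ b, ‖β b‖ ≤ 1) →
    (Z.card : ℝ) ≤ (p : ℝ) ^ δ → HypH p ε K δ X Y Z W H₁ H₂ →
      ∑ x ∈ X, ‖∑ y ∈ Y, β y * χ (x - y)‖ ≤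
        (p : ℝ) ^ (-δ) * (Real.sqrt (p * (X.card * Y.card)) + X.card * Y.card)

/-- MOI (short-medium; Moebius maps).  `g(x) - g(y) = (ad - bc)(x - y)/((cx+d)(cy+d))`, so (`χ(v⁻¹) = χ⁻¹(v)`)
`χ(g(x) - g(y)) = χ(ad-bc) χ⁻¹(cx+d) χ(x-y) χ⁻¹(cy+d)`: the sum over `y` is `χ(ad-bc) χ⁻¹(cx+d)` (modulus `≤ 1`) times
`∑_y β'_y χ(x-y)`, `β'_y = β_y χ⁻¹(cy+d)`, `|β'| ≤ 1`. -/
def MOI_stmt : Prop := ∀ (p : ℕ) [Fact p.Prime] (χ : MulChar (ZMod p) ℂ) (X Y : Finset (ZMod p))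
  (a b c d : ZMod p) (V : ℝ), (∀ x ∈ X, c * x + d ≠ 0) → (∀ y ∈ Y, c * y + d ≠ 0) →
  (∀ β : ZMod p → ℂ, (∀ y, ‖β y‖ ≤ 1) → ∑ x ∈ X, ‖∑ y ∈ Y, β y * χ (x - y)‖ ≤ V) →
  ∀ β : ZMod p → ℂ, (∀ y, ‖β y‖ ≤ 1) →
    ∑ x ∈ X, ‖∑ y ∈ Y, β y * χ ((a * x + b) / (c * x + d) - (a * y + b) / (c * y + d))‖ ≤ V

/-- OTF (short; from TRS OLD MOI; THE THEOREM).  `δ` = the smaller of the two (`p^(-δ)` is monotone, and so are the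
hypotheses in `δ`). -/
def OTF_stmt : Prop := ∀ K ε : ℝ, 0 < ε → ∃ (δ : ℝ) (p₀ : ℕ), 0 < δ ∧ ∀ (p : ℕ) [Fact p.Prime], p₀ < p →
  ∀ (χ : MulChar (ZMod p) ℂ) (N : ℕ) (X Y Z W H₁ H₂ : Finset (ZMod p)) (β : ZMod p → ℂ) (a b c d : ZMod p),
    χ ≠ 1 → (∀ y, ‖β y‖ ≤ 1) → (∀ x ∈ X, c * x + d ≠ 0) → (∀ y ∈ Y, c * y + d ≠ 0) →
    (Z.card : ℝ) ≤ (p : ℝ) ^ δ → (HypN p ε N X Y Z W ∨ HypH p ε K δ X Y Z W H₁ H₂) →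
      ∑ x ∈ X, ‖∑ y ∈ Y, β y * χ ((a * x + b) / (c * x + d) - (a * y + b) / (c * y + d))‖ ≤
        (p : ℝ) ^ (-δ) * (Real.sqrt (p * (X.card * Y.card)) + X.card * Y.card)

end Pool.Agent.OT
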