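import Mathlib
import Pool.Agent.helper64.OT.SpecF

/-!
# Project OT, second theorem (MP_f6e9a2_nt): hosts of small doubling

THEOREM (`OTG_stmt`): `X` in `p^δ` translates of a set `H` with `|H + H| ≤ K |H|`, `|H| ≤ p^(3/4-ε)`, `Y` ARBITRARY (or
`Y` in `|W|` translates of `H`, `|W| |H| ≤ p^(1-ε)`), all Moebius images.

IDEA.  The same proof as for intervals, with the set of frequencies `{0,..,T-1}` replaced by a dual set `S` of a system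
`P` (generalized progression): `S = {s : |ps(s y) - 1| ≤ 1/16 for all y ∈ P 1}`, `|S|` about `p / |P 1|`,
`|(S-S)+(S-S)| ≤ D |S|`.  Cells: maximal families of disjoint translates of `P(θ/2)`, `θ = p^(-κ₀)`.

RULES.  Import this file, namespace `Pool.Agent.OG`, `open Finset Pool.Agent.OT Pool.Agent.SPI Pool.Agent.helper85.PG`,
`open scoped Pointwise`.  Every `X_stmt` is proved in `Pool/Agent/<seat>/OT/X.lean`, `theorem X ... : X_stmt`, exact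
theorem line in the lock note.  MANY ROWS ARE ADAPTATIONS of proved rows for intervals (same lemma with `range T`
replaced by `S`, `T` by `|S|`): the file is named in the docstring, copy and change it (rename its auxiliary lemmas).
No double quotes, no native_decide, no convert / congr!.
-/

set_option autoImplicit false

namespace Pool.Agent.OG

open Finset Pool.Agent.OT Pool.Agent.SPI Pool.Agent.helper85.PG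
open scoped Pointwise

/-- the kernel `|∑_(s ∈ S) ps(s x)|² / |S|²` -/
noncomputable def psS {p : ℕ} [NeZero p] (S : Finset (ZMod p)) (x : ZMod p) : ℝ :=
  ‖∑ s ∈ S, ps (s * x)‖ ^ 2 / (S.card : ℝ) ^ 2

/-- its Fourier coefficients `#{(s, s') ∈ S² : s - s' = r} / |S|²` -/
noncomputable def wS {p : ℕ} (S : Finset (ZMod p)) (r : ZMod p) : ℝ :=
  (((S ×ˢ S).filter fun z => z.1 - z.2 = r).card : ℝ) / (S.card : ℝ) ^ 2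

/-- the weighted correlation -/
noncomputable def TpS {p : ℕ} [NeZero p] (χ : MulChar (ZMod p) ℂ) (S : Finset (ZMod p)) (c c' : Option (ZMod p)) : ℂ :=
  ∑ x : ZMod p, (psS S x : ℂ) * (ch χ c x * (starRingEnd ℂ) (ch χ c' x))

/-- the weighted number of quadruples with `qq = 0` -/
noncomputable def nS {p : ℕ} [NeZero p] (S : Finset (ZMod p)) (lam : ZMod p) : ℝ :=
  ∑ x₁ : ZMod p, ∑ x₂ : ZMod p, ∑ x₃ : ZMod p, ∑ x₄ : ZMod p,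
    if qq lam x₁ x₂ x₃ x₄ = 0 then psS S x₁ * psS S x₂ * psS S x₃ * psS S x₄ else 0

/-- the weight `wS(a) wS(b) wS(c) wS(-(a+b+c))` -/
noncomputable def wqS {p : ℕ} (S : Finset (ZMod p)) (a b c : ZMod p) : ℝ := wS S a * wS S b * wS S c * wS S (-(a + b + c))

/-- `p² ∑_(a,b,c) wqS(a,b,c) χ₂(PX(a,b,c; lam))` -/
noncomputable def DSS {p : ℕ} [Fact p.Prime] (S : Finset (ZMod p)) (lam : ZMod p) : ℝ :=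
  (p : ℝ) ^ 2 * ∑ a : ZMod p, ∑ b : ZMod p, ∑ c : ZMod p,
    wqS S a b c * ((quadraticChar (ZMod p) (PX a b c lam) : ℤ) : ℝ)

/-- `∑_(y ∈ J) ps(r y)` -/
noncomputable def WY {p : ℕ} [NeZero p] (J : Finset (ZMod p)) (r : ZMod p) : ℂ := ∑ y ∈ J, ps (r * y)

/-- the part of `B` which belongs to the centre `y` -/
def BY {p : ℕ} (B : Finset (ZMod p)) (cl : ZMod p → ZMod p) (y : ZMod p) : Finset (ZMod p) := B.filter fun b => cl b = y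

/-- `∑_(y ∈ J) (∑_(s ∈ S) χ⁻¹(t-s) ps(-s y)) (∑_(b, cl b = y) β_b ps(t b))` -/
noncomputable def GT {p : ℕ} [NeZero p] (χ : MulChar (ZMod p) ℂ) (S J : Finset (ZMod p)) (cl : ZMod p → ZMod p)
    (B : Finset (ZMod p)) (β : ZMod p → ℂ) (t : ZMod p) : ℂ :=
  ∑ y ∈ J, (∑ s ∈ S, χ⁻¹ (t - s) * ps (-(s * y))) * ft (BY B cl y) β t

/-- `#{y ∈ H : c + y ∈ B, c' + y ∈ B}` -/
def mmS {p : ℕ} (H B : Finset (ZMod p)) (c c' : ZMod p) : ℕ := (H.filter fun y => c + y ∈ B ∧ c' + y ∈ B).card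

/-- the local energy `#{(b₁,b₂,b₃,b₄) ∈ B⁴ : b₁ - b₂ = b₃ - b₄, b₁ - b₃ ∈ H - H}` -/
def ES {p : ℕ} (H B : Finset (ZMod p)) : ℕ :=
  (((B ×ˢ B) ×ˢ (B ×ˢ B)).filter fun z => z.1.1 - z.1.2 = z.2.1 - z.2.2 ∧ z.1.1 - z.2.1 ∈ H - H).card

open Classical in
/-- the dual set `{s : |ps(s y) - 1| ≤ κ for all y ∈ P 1}` -/
noncomputable def Sk {p : ℕ} [NeZero p] (P : ℝ → Finset (ZMod p)) (κ : ℝ) : Finset (ZMod p) :=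
  univ.filter fun s => ∀ y ∈ P 1, ‖ps (s * y) - 1‖ ≤ κ

/-! ### The fourth moment for a set `S` of frequencies -/

/-- PSS (short-medium; adapt `PSI`, `Pool/Agent/helper90/OT/PSI.lean`; `s x` takes different values). -/
def PSS_stmt : Prop := ∀ (p : ℕ) [Fact p.Prime] (S : Finset (ZMod p)), S.Nonempty →
  (∀ x : ZMod p, 0 ≤ psS S x ∧ psS S x ≤ 1) ∧ ∑ x : ZMod p, psS S x = p / S.card

/-- WSS (short-medium; adapt `WTF`, `Pool/Agent/helper41/OT/WTF.lean`). -/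
def WSS_stmt : Prop := ∀ (p : ℕ) [Fact p.Prime] (S : Finset (ZMod p)), S.Nonempty →
  (∀ x : ZMod p, (psS S x : ℂ) = ∑ r : ZMod p, (wS S r : ℂ) * ps (r * x)) ∧
  (∀ r : ZMod p, 0 ≤ wS S r ∧ wS S r ≤ 1 / (S.card : ℝ)) ∧
  ∑ r : ZMod p, wS S r = 1 ∧ ∀ r : ZMod p, wS S r ≠ 0 → r ∈ S - S

/-- FMS (short; adapt `FME`, `Pool/Agent/helper25/OT/FME.lean`). -/
def FMS_stmt : Prop := ∀ (p : ℕ) [Fact p.Prime] (χ : MulChar (ZMod p) ℂ) (S : Finset (ZMod p)),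
  ∑ c : Option (ZMod p), ∑ c' : Option (ZMod p), ‖TpS χ S c c'‖ ^ 4 =
    ∑ x₁ : ZMod p, ∑ x₂ : ZMod p, ∑ x₃ : ZMod p, ∑ x₄ : ZMod p,
      psS S x₁ * psS S x₂ * psS S x₃ * psS S x₄ * ‖CS χ x₁ x₂ x₃ x₄‖ ^ 2

/-- MFS (short-medium; adapt `MF1`, `Pool/Agent/helper24/OT/MF1.lean`). -/
def MFS_stmt : Prop := ∀ (p : ℕ) [Fact p.Prime] (χ : MulChar (ZMod p) ℂ) (S : Finset (ZMod p)), χ ≠ 1 →
  S.Nonempty →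
  ∑ x₁ : ZMod p, ∑ x₂ : ZMod p, ∑ x₃ : ZMod p, ∑ x₄ : ZMod p,
      psS S x₁ * psS S x₂ * psS S x₃ * psS S x₄ * ‖CS χ x₁ x₂ x₃ x₄‖ ^ 2 ≤
    ∑ lam ∈ univ.filter (fun lam : ZMod p => lam ≠ 0 ∧ lam ≠ 1), HH χ lam * nS S lam +
      3 * ((p : ℝ) / S.card) ^ 2 * ((p : ℝ) + 1) ^ 2 + 54 * ((p : ℝ) / S.card) ^ 3 * p

/-- DIS (short; adapt `DIA`, `Pool/Agent/helper29/OT/DIA.lean`). -/
def DIS_stmt : Prop := ∀ (p : ℕ) [Fact p.Prime] (χ : MulChar (ZMod p) ℂ) (S : Finset (ZMod p)), S.Nonempty →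
  ((p : ℝ) - 3) * ((p : ℝ) / S.card) ^ 4 ≤ ∑ c : Option (ZMod p), ‖TpS χ S c c‖ ^ 4

/-- MGS (short-medium; adapt `MF2`, `Pool/Agent/helper98/OT/MF2.lean`). -/
def MGS_stmt : Prop := ∀ (p : ℕ) [Fact p.Prime] (χ : MulChar (ZMod p) ℂ) (S : Finset (ZMod p)), χ ≠ 1 →
  S.Nonempty →
  ∑ c : ZMod p, ∑ c' ∈ univ.filter (fun c' : ZMod p => c ≠ c'), ‖TpS χ S (some c) (some c')‖ ^ 4 ≤
    4 * p * ∑ lam ∈ univ.filter (fun lam : ZMod p => lam ≠ 0 ∧ lam ≠ 1), |nS S lam - ((p : ℝ) / S.card) ^ 4 / p| +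
      100 * ((p : ℝ) / S.card) ^ 2 * (p : ℝ) ^ 2

/-- DLS (short-medium; adapt `DLF`, `Pool/Agent/helper16/OT/DLF.lean`). -/
def DLS_stmt : Prop := ∀ (p : ℕ) [Fact p.Prime] (S : Finset (ZMod p)), p ≠ 2 → S.Nonempty →
  ∀ lam : ZMod p, lam ≠ 0 → lam ≠ 1 → nS S lam - ((p : ℝ) / S.card) ^ 4 / p = DSS S lam

/-- SMS (medium; adapt `SMD`, `Pool/Agent/helper96/OT/SMD.lean`).  The only change: in the pairs with `κ`, EXC is used for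
the finset `{r : wS S r ≠ 0} ⊆ S - S`, whose sumset has at most `D |S|` elements: at most `4 D |S|` triples, each with
`wqS ≤ |S|⁻⁴`: total `≤ p⁴ |S|⁻¹ 4 D |S| |S|⁻⁴ p = 4 D (p/|S|)⁴ p`. -/
def SMS_stmt : Prop := ∀ (p : ℕ) [Fact p.Prime] (S : Finset (ZMod p)) (D : ℝ), p ≠ 2 → S.Nonempty → 0 ≤ D →
  (((S - S) + (S - S)).card : ℝ) ≤ D * S.card →
  ∑ lam : ZMod p, DSS S lam ^ 2 ≤
    4 * ((p : ℝ) / S.card) ^ 2 * (p : ℝ) ^ 2 * Real.sqrt p + (16 + 4 * D) * ((p : ℝ) / S.card) ^ 4 * p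

/-- M4S (short; adapt `M4`, `Pool/Agent/helper92/OT/M4.lean`; `(16+4D)^(1/2) ≤ 4 + D`). -/
def M4S_stmt : Prop := ∀ (p : ℕ) [Fact p.Prime] (χ : MulChar (ZMod p) ℂ) (S : Finset (ZMod p)) (D : ℝ), χ ≠ 1 →
  p ≠ 2 → S.Nonempty → 0 ≤ D → (((S - S) + (S - S)).card : ℝ) ≤ D * S.card →
  ∑ c : ZMod p, ∑ c' ∈ univ.filter (fun c' : ZMod p => c ≠ c'), ‖TpS χ S (some c) (some c')‖ ^ 4 ≤
    (120 + 4 * D) * (((p : ℝ) / S.card) ^ 2 * (p : ℝ) ^ 2 + (p : ℝ) / S.card * (p : ℝ) ^ (11 / 4 : ℝ))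

/-! ### Duality -/

/-- PGT (short; adapt `PGS`, `Pool/Agent/helper88/OT/PGS.lean`). -/
def PGT_stmt : Prop := ∀ (p : ℕ) [Fact p.Prime] (χ : MulChar (ZMod p) ℂ) (S B : Finset (ZMod p))
  (β : ZMod p → ℂ), χ ≠ 1 → S.Nonempty →
    ∑ x : ZMod p, psS S x * ‖FB χ B β x‖ ^ 2 =
      (∑ t : ZMod p, ‖∑ s ∈ S, χ⁻¹ (t - s) * ft B β (t - s)‖ ^ 2) / (S.card : ℝ) ^ 2

/-- LST (short-medium; large sieve by disjointness; from PLN).  `g = ∑_(y ∈ J) 1_(y+V)` is the indicator function of a set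
`U` of `|J| |V|` elements (the translates are disjoint), its transform is `WY J r · ∑_(v ∈ V) ps(r v)`, of modulus at least
`|WY J r| |V|/2` for `r ∈ R`; PLN for `U`: `∑_(r ∈ R) |WY|² |V|²/4 ≤ p |J| |V|`. -/
def LST_stmt : Prop := ∀ (p : ℕ) [Fact p.Prime] (J V R : Finset (ZMod p)), V.Nonempty →
  (∀ y ∈ J, ∀ y' ∈ J, ∀ v ∈ V, ∀ v' ∈ V, y + v = y' + v' → y = y') →
  (∀ r ∈ R, (V.card : ℝ) ≤ 2 * ‖∑ v ∈ V, ps (r * v)‖) →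
    ∑ r ∈ R, ‖WY J r‖ ^ 2 ≤ 4 * p * J.card / V.card

/-- GNT (medium; adapt `GNA`, `Pool/Agent/helper85/OT/GNA.lean`: here the weights `w` are `1`, the frequencies are
`s ∈ S`, the cells are the sets `BY B cl y`, `y ∈ J`). -/
def GNT_stmt : Prop := ∀ (p : ℕ) [Fact p.Prime] (χ : MulChar (ZMod p) ℂ) (S J : Finset (ZMod p))
  (cl : ZMod p → ZMod p) (B : Finset (ZMod p)) (β : ZMod p → ℂ), χ ≠ 1 → (∀ b, ‖β b‖ ≤ 1) → (∀ b ∈ B, cl b ∈ J) →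
    ∑ t : ZMod p, ‖GT χ S J cl B β t‖ ^ 2 ≤ (S.card : ℝ) * J.card * p * B.card +
      4 * Real.sqrt p * (∑ s ∈ S, ∑ s' ∈ S, ‖WY J (s' - s)‖) * ∑ y ∈ J, ((BY B cl y).card : ℝ) ^ 2

/-- D1S (medium; from PGT, LST, GNT, PLN).  `T = |S|`, `R = |J|`, `Q = ∑_y |BY|²`, `f = ft B β`.  By PGT:
`∑_(x ∈ H) |F|² ≤ 2 ∑_x psS |F|² = 2 T⁻² ∑_t |∑_s χ⁻¹(t-s) f(t-s)|²`.  As `ps(-s b) = ps(-s cl b) ps(-s (b - cl b))`: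
`∑_s χ⁻¹(t-s) f(t-s) = GT(t) + ∑_s χ⁻¹(t-s) err_s(t)`, `err_s(t) = ∑_b β_b ps(t b) ps(-s cl b) (ps(-s(b - cl b)) - 1)`,
`∑_t |err_s|² ≤ p ρ² |B|` (PLN), so (Cauchy over `s`) `∑_t |∑_s χ⁻¹ err_s|² ≤ T² ρ² p |B|`, and `|a+b|² ≤ 2|a|²+2|b|²`:
`∑_(x ∈ H) |F|² ≤ 4 T⁻² ∑_t |GT|² + 4 ρ² p |B|`.  In GNT: `∑_(s,s') |WY(s'-s)| ≤ T ∑_(r ∈ S-S) |WY r| ≤
T (D T)^(1/2) (4 p R/|V|)^(1/2)` (Cauchy, LST with `R = S - S`).  So the second term is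
`4 T⁻² 4 p^(1/2) 2 T (D T p R/|V|)^(1/2) Q`. -/
def D1S_stmt : Prop := ∀ (p : ℕ) [Fact p.Prime] (χ : MulChar (ZMod p) ℂ) (S H J V : Finset (ZMod p))
  (cl : ZMod p → ZMod p) (B : Finset (ZMod p)) (β : ZMod p → ℂ) (D ρ : ℝ), χ ≠ 1 → (∀ b, ‖β b‖ ≤ 1) →
  S.Nonempty → V.Nonempty → 0 ≤ D → 0 ≤ ρ → (∀ x ∈ H, 1 / 2 ≤ psS S x) → (∀ b ∈ B, cl b ∈ J) →
  (∀ b ∈ B, ∀ s ∈ S, ‖ps (s * (b - cl b)) - 1‖ ≤ ρ) →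
  (∀ y ∈ J, ∀ y' ∈ J, ∀ v ∈ V, ∀ v' ∈ V, y + v = y' + v' → y = y') →
  (∀ r ∈ S - S, (V.card : ℝ) ≤ 2 * ‖∑ v ∈ V, ps (r * v)‖) → ((S - S).card : ℝ) ≤ D * S.card →
    ∑ x ∈ H, ‖FB χ B β x‖ ^ 2 ≤ 4 * ((p : ℝ) / S.card) * J.card * B.card +
      32 * Real.sqrt p * Real.sqrt (D * p * J.card / (V.card * S.card)) * ∑ y ∈ J, ((BY B cl y).card : ℝ) ^ 2 +
      4 * ρ ^ 2 * p * B.card

/-! ### The fourth moment bound -/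

/-- PCA (short-medium; adapt `PC1`, `Pool/Agent/helper54/OT/PC1.lean`, with `y ∈ H` instead of `y < N`; the lower bound for
the kernel is now a hypothesis). -/
def PCA_stmt : Prop := ∀ (p : ℕ) [Fact p.Prime] (χ : MulChar (ZMod p) ℂ) (S H B : Finset (ZMod p))
  (β : ZMod p → ℂ), S.Nonempty → H.Nonempty → (∀ x ∈ H, ∀ y ∈ H, 1 / 2 ≤ psS S (x + y)) → (∀ b, ‖β b‖ ≤ 1) →
    ∑ x ∈ H, ‖FB χ B β x‖ ^ 2 ≤ 2 * ((p : ℝ) / S.card) * B.card +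
      2 / (H.card : ℝ) * ∑ c : ZMod p, ∑ c' ∈ univ.filter (fun c' : ZMod p => c ≠ c'),
        ‖TpS χ S (some c) (some c')‖ * mmS H B c c'

/-- PCB (short-medium; adapt `PC2`, `Pool/Agent/helper88/OT/PC2.lean`; `b₁ - b₃ = y - y' ∈ H - H`; for given `(b_i)` and
`y` the others are determined). -/
def PCB_stmt : Prop := ∀ (p : ℕ) [Fact p.Prime] (H B : Finset (ZMod p)),
  ∑ c : ZMod p, ∑ c' : ZMod p, (mmS H B c c' : ℝ) ≤ H.card * (B.card : ℝ) ^ 2 ∧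
  ∑ c : ZMod p, ∑ c' : ZMod p, (mmS H B c c' : ℝ) ^ 2 ≤ H.card * (ES H B : ℝ)

/-- P3S (short-medium; adapt `P3`, `Pool/Agent/helper78/OT/P3.lean`; from M4S, PCA, PCB, PC3).  `N₀ = p/|S| ≤ D |H|`,
`N₀² p² + N₀ p^(11/4) ≤ D² |H| (|H| p² + p^(11/4))`, `120 + 4 D ≤ 124 D`, `2 (124 D³)^(1/4) ≤ 7 D`. -/
def P3S_stmt : Prop := ∀ (p : ℕ) [Fact p.Prime] (χ : MulChar (ZMod p) ℂ) (S H B : Finset (ZMod p))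
  (β : ZMod p → ℂ) (D : ℝ), χ ≠ 1 → p ≠ 2 → S.Nonempty → H.Nonempty → 1 ≤ D →
  (((S - S) + (S - S)).card : ℝ) ≤ D * S.card → (p : ℝ) ≤ D * H.card * S.card →
  (∀ x ∈ H, ∀ y ∈ H, 1 / 2 ≤ psS S (x + y)) → (∀ b, ‖β b‖ ≤ 1) →
    ∑ x ∈ H, ‖FB χ B β x‖ ^ 2 ≤
      100 * D * ((H.card : ℝ) * B.card + B.card *
        ((ES H B : ℝ) * ((H.card : ℝ) * (p : ℝ) ^ 2 + (p : ℝ) ^ (11 / 4 : ℝ))) ^ (1 / 4 : ℝ))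

/-! ### The dual set of a system -/

/-- DUA (medium; from PLN, PKC; adapt `ZA` and `ZB`, `Pool/Agent/helper63/SPI/{ZA,ZB}.lean`).  We may assume `κ ≤ 1`.
`τ = κ²/(32 · 5^d)`, `k ≥ 1` with `(1-τ)^(2k-2) (1+4k)^d ≤ 1/2`, `c = 1/(2 (1+4k)^d)`, `V = P 2`, `V^(t) = ∑_(y ∈ V) ps(t y)`.
As in ZA: sums of `k` elements of `V` lie in `P (2k)`, so `∑_t |V^(t)|^(2k) ≥ p |V|^(2k)/|P(2k)| ≥
p |V|^(2k)/((1+4k)^d |P 1|)` (PKC).  Let `L = {t : |V^(t)| ≥ (1-τ) |V|}`; the `t ∉ L` contribute at most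
`((1-τ) |V|)^(2k-2) p |V| ≤ (1-τ)^(2k-2) p |V|^(2k)/|P 1|` (PLN, `|V| ≥ |P 1|`), at most one half of the lower bound, so
`|L| |V|^(2k) ≥ p |V|^(2k)/(2 (1+4k)^d |P 1|)`.  As in ZB (its proof, for `t ∈ L`, `ζ = 2t`):
`1 - Re ps(ζ y) ≤ 16 · 5^d τ` for `y ∈ P 1`, and `|ps(ζ y) - 1|² = 2 (1 - Re ps(ζ y)) ≤ κ²`.  `t ↦ 2t` is injective. -/
def DUA_stmt : Prop := ∀ (d : ℕ) (κ : ℝ), 0 < κ → ∃ c : ℝ, 0 < c ∧ ∀ (p : ℕ) [Fact p.Prime], p ≠ 2 →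
  ∀ P : ℝ → Finset (ZMod p), IsSys p d P → c * p ≤ ((P 1).card : ℝ) * (Sk P κ).card

/-- SUP (short; from PLN).  For `s ∈ Sk P κ`: `|∑_(y ∈ P 1) ps(s y)| ≥ |P 1| (1 - κ) ≥ |P 1|/2`; PLN for `P 1`, weights `1`:
`∑_t |..|² = p |P 1|`. -/
def SUP_stmt : Prop := ∀ (p : ℕ) [Fact p.Prime] (d : ℕ) (P : ℝ → Finset (ZMod p)) (κ : ℝ), IsSys p d P →
  κ ≤ 1 / 2 → ((P 1).card : ℝ) * (Sk P κ).card ≤ 4 * p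

/-- DSY (short-medium; from DUA, SUP, PKC).  `S = Sk P (1/16)`, `c` from DUA for `κ = 1/16`, `D = max 1 (4 · 5^d/c)`.
`0 ∈ S`.  `(S-S)+(S-S) ⊆ Sk P (1/4)` (`|ps(u+v) - 1| ≤ |ps u - 1| + |ps v - 1|`), so by SUP at most `4p/|P 1| ≤ (4/c) |S|`
elements, and `S - S` is a subset.  `|P 1| ≤ 5^d |P (1/2)|` (PKC).  `psS`: `|∑_s ps(s x) - |S|| ≤ |S|/16`.  For
`r ∈ S - S`, `v ∈ P 1`: `|ps(r v) - 1| ≤ 1/8`. -/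
def DSY_stmt : Prop := ∀ d : ℕ, ∃ D : ℝ, 1 ≤ D ∧ ∀ (p : ℕ) [Fact p.Prime], p ≠ 2 →
  ∀ P : ℝ → Finset (ZMod p), IsSys p d P → (Sk P (1 / 16)).Nonempty ∧
    (((Sk P (1 / 16) - Sk P (1 / 16)) + (Sk P (1 / 16) - Sk P (1 / 16))).card : ℝ) ≤ D * (Sk P (1 / 16)).card ∧
    ((Sk P (1 / 16) - Sk P (1 / 16)).card : ℝ) ≤ D * (Sk P (1 / 16)).card ∧
    (p : ℝ) ≤ D * (P (1 / 2)).card * (Sk P (1 / 16)).card ∧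
    (p : ℝ) ≤ D * (P 1).card * (Sk P (1 / 16)).card ∧
    (∀ x ∈ P 1, 1 / 2 ≤ psS (Sk P (1 / 16)) x) ∧
    ∀ V : Finset (ZMod p), V ⊆ P 1 → ∀ r ∈ Sk P (1 / 16) - Sk P (1 / 16),
      (V.card : ℝ) ≤ 2 * ‖∑ v ∈ V, ps (r * v)‖

/-- ANG (short-medium).  `z = ps(s v)`; for `n ≤ m`: `n v ∈ P(n/m) ⊆ P 1` (`IsSys.nat_mul_mem`, `IsSys.mono`), so
`|z^n - 1| ≤ 1/16`, `Re z^n ≥ 1/2`, `|∑_(n<m) z^n| ≥ m/2`, and `(z - 1) ∑_(n<m) z^n = z^m - 1`: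
`|z - 1| ≤ (1/16)(2/m) ≤ 1/m`. -/
def ANG_stmt : Prop := ∀ (p : ℕ) [Fact p.Prime] (d : ℕ) (P : ℝ → Finset (ZMod p)) (m : ℕ) (s v : ZMod p),
  IsSys p d P → 0 < m → s ∈ Sk P (1 / 16) → v ∈ P (1 / (m : ℝ)) → ‖ps (s * v) - 1‖ ≤ 1 / (m : ℝ)

/-! ### Assembly -/

/-- MEH (short; adapt `MED`, see the lock table for its file; `X ⊆ H` instead of `x.val < N`, a constant `Λ` instead of
`10^6`).  From SIZ with `c₀ = κ/8`. -/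
def MEH_stmt : Prop := ∀ ε κ Λ : ℝ, 0 < ε → 0 < κ → 0 < Λ → ∃ (c : ℝ) (p₀ : ℕ), 0 < c ∧ ∀ (p : ℕ) [Fact p.Prime],
  p₀ < p → ∀ (χ : MulChar (ZMod p) ℂ) (H X B : Finset (ZMod p)) (β : ZMod p → ℂ), χ ≠ 1 → (∀ b, ‖β b‖ ≤ 1) →
    X ⊆ H → (X.card : ℝ) ≤ (p : ℝ) ^ (1 - ε) →
    ((B.card : ℝ) ≤ (p : ℝ) ^ (1 - ε) ∨ (p : ℝ) ^ ε ≤ X.card) →
    ((p : ℝ) ^ (1 / 2 - κ / 8) ≤ B.card → (B.card : ℝ) ≤ (p : ℝ) ^ (1 / 2 + κ / 8) →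
      ∑ x ∈ H, ‖FB χ B β x‖ ^ 2 ≤ Λ * (p : ℝ) ^ (1 / 2 - κ) * (B.card : ℝ) ^ 2) →
      ∑ x ∈ X, ‖FB χ B β x‖ ≤ (p : ℝ) ^ (-c) * (Real.sqrt (p * (X.card * B.card)) + X.card * B.card)

/-- CEN (short-medium; centres).  `J` = a subset of `B` of maximal size with disjoint translates `y + V` (`y ∈ J`).  For
`b ∈ B` maximality gives `y ∈ J` with `(b + V) ∩ (y + V) ≠ ∅` (if `b ∉ J`; `V` nonempty), so `b - y ∈ V - V`; choose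
`cl b = y`, and `cl y = y` for `y ∈ J` (`0 ∈ V - V`). -/
def CEN_stmt : Prop := ∀ (p : ℕ) [Fact p.Prime] (V B : Finset (ZMod p)), V.Nonempty →
  ∃ (J : Finset (ZMod p)) (cl : ZMod p → ZMod p), J ⊆ B ∧ (∀ y ∈ J, cl y = y) ∧
    (∀ b ∈ B, cl b ∈ J ∧ b - cl b ∈ V - V) ∧
    ∀ y ∈ J, ∀ y' ∈ J, ∀ v ∈ V, ∀ v' ∈ V, y + v = y' + v' → y = y'

/-- UNH (medium, numeric; from MEH, D1S, DSY, ANG, PKC and `Pool.Agent.SPI.p_FIT`; compare `UNI`).  We may assume `ε ≤ 1`.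
`δ₁` = the `δ` of `p_FIT (5^d) (ε/2)`, `κ₀ = min (δ₁/(2d+2)) (ε/(2d+2))`, `θ = p^(-κ₀)`.  If `B` is empty, `S = 0`.
If `|J| ≤ p^(δ₁)`: `p_FIT` with `A := X ⊆ {0} + P(1/2)`, `B ⊆ J + P θ`, `|P(t)+P(t)| ≤ |P(2t)| ≤ 5^d |P t|` (PKC), both
hosts have at most `|P 1| ≤ p^(1-ε)` elements (phases `α` turn `∑_x |FB(x)|` into `∑∑ α β χ`).
If `|J| > p^(δ₁)`: MEH with `H = P(1/2)`, `κ = min (δ₁/8) (min (ε/2) κ₀)`, `Λ` depending on `d`: `|X|, |B| ≤ p^(1-ε)`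
(`|B| ≤ |J| |P θ| ≤ |J| |P 1|`).  D1S with `S = Sk P (1/16)`, `V = P(θ/2)`, `ρ = 2 θ` (ANG with `m = ⌊1/θ⌋ ≥ 1/(2θ)`:
`b - cl b ∈ P θ ⊆ P(1/m)`), `D` from DSY: (1) `4 (p/|S|) |J| |B| ≤ 4 D |P 1| |J| |B| ≤ 4 D p^(1-ε) |B| ≤
4 D p^(1/2-ε+κ/8) |B|²`; (2) `∑_y |BY|² ≤ 2 M |B| ≤ 2 |B|²/|J|` (`M |J| ≤ |B|`) and
`|V| |S| ≥ |P 1| |S| (1+8/θ)^(-d) ≥ p/(D 9^d p^(κ₀ d))` (PKC: `|P 1| ≤ (1+4/θ)^d |P(θ/2)|`), so the second term is at most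
`C_d p^(1/2+κ₀ d/2) |J|^(-1/2) |B|² ≤ C_d p^(1/2+δ₁/4-δ₁/2) |B|²`; (3) `4 (2θ)² p |B| = 16 p^(1-2κ₀) |B| ≤
16 p^(1/2-2κ₀+κ/8) |B|²`.  All exponents are `≤ 1/2 - κ`. -/
def UNH_stmt : Prop := ∀ (d : ℕ) (ε : ℝ), 0 < ε → ∃ (κ₀ c : ℝ) (p₀ : ℕ), 0 < κ₀ ∧ κ₀ * d ≤ ε / 2 ∧ 0 < c ∧
  ∀ (p : ℕ) [Fact p.Prime], p₀ < p → ∀ (χ : MulChar (ZMod p) ℂ) (P : ℝ → Finset (ZMod p)) (J : Finset (ZMod p))
  (cl : ZMod p → ZMod p) (M : ℕ) (X B : Finset (ZMod p)) (β : ZMod p → ℂ), χ ≠ 1 → (∀ b, ‖β b‖ ≤ 1) →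
    IsSys p d P → X ⊆ P (1 / 2) → ((P 1).card : ℝ) * J.card ≤ (p : ℝ) ^ (1 - ε) →
    (∀ b ∈ B, cl b ∈ J ∧ b - cl b ∈ P ((p : ℝ) ^ (-κ₀))) →
    (∀ y ∈ J, ∀ y' ∈ J, ∀ v ∈ P ((p : ℝ) ^ (-κ₀) / 2), ∀ v' ∈ P ((p : ℝ) ^ (-κ₀) / 2), y + v = y' + v' → y = y') →
    (∀ y ∈ J, M ≤ (BY B cl y).card ∧ (BY B cl y).card ≤ 2 * M) →
      ∑ x ∈ X, ‖FB χ B β x‖ ≤ (p : ℝ) ^ (-c) * (Real.sqrt (p * (X.card * B.card)) + X.card * B.card)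

/-- DYH (short-medium; dyadic classes; compare `DYA`).  `J i = {y ∈ J : 2^i ≤ |BY B cl y| < 2^(i+1)}` and
`B i = {b ∈ B : cl b ∈ J i}`, `i < Nat.log 2 p + 1` (`1 ≤ |BY B cl (cl b)| ≤ p` for `b ∈ B`). -/
def DYH_stmt : Prop := ∀ (p : ℕ) [Fact p.Prime] (J B : Finset (ZMod p)) (cl : ZMod p → ZMod p),
  (∀ b ∈ B, cl b ∈ J) → ∃ Ji Bi : ℕ → Finset (ZMod p), (∀ i, Ji i ⊆ J ∧ Bi i ⊆ B) ∧
    (∀ f : ZMod p → ℂ, ∑ b ∈ B, f b = ∑ i ∈ range (Nat.log 2 p + 1), ∑ b ∈ Bi i, f b) ∧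
    ∀ i, (∀ b ∈ Bi i, cl b ∈ Ji i) ∧
      ∀ y ∈ Ji i, 2 ^ i ≤ (BY (Bi i) cl y).card ∧ (BY (Bi i) cl y).card ≤ 2 * 2 ^ i

/-- COH (medium; from UNH, DYH, CEN, PKC; core (b)).  UNH for `ε/2` gives `κ₀`, `κ₀ d ≤ ε/4`; `θ = p^(-κ₀)`, `V = P(θ/2)`,
`V - V ⊆ P θ`; `J, cl` from CEN.  The sets `y + V` (`y ∈ J`) are disjoint subsets of `W + P 3` (`y ∈ B ⊆ W + P 2`), so
`|J| |V| ≤ |W| |P 3| ≤ |W| (1 + 12/θ)^d |V|` (PKC), `|P 1| |J| ≤ 13^d p^(κ₀ d) p^(1-ε) ≤ p^(1-ε/2)` for large `p`.  DYH, UNH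
for every class (`M = 2^i`), sum of `log₂ p + 1` bounds (compare `COB`). -/
def COH_stmt : Prop := ∀ (d : ℕ) (ε : ℝ), 0 < ε → ∃ (c : ℝ) (p₀ : ℕ), 0 < c ∧
  ∀ (p : ℕ) [Fact p.Prime], p₀ < p → ∀ (χ : MulChar (ZMod p) ℂ) (P : ℝ → Finset (ZMod p))
  (X B W : Finset (ZMod p)) (β : ZMod p → ℂ), χ ≠ 1 → (∀ b, ‖β b‖ ≤ 1) →
    IsSys p d P → X ⊆ P (1 / 2) → ((P 1).card : ℝ) * W.card ≤ (p : ℝ) ^ (1 - ε) → (∀ b ∈ B, ∃ w ∈ W, b - w ∈ P 2) →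
      ∑ x ∈ X, ‖FB χ B β x‖ ≤ (p : ℝ) ^ (-c) * (Real.sqrt (p * (X.card * B.card)) + X.card * B.card)

/-- HVY (medium; heavy points).  `L = {b ∈ B : |B ∩ (b + P 1)| ≤ m}`; `J` = a maximal subset of `B \ L` with disjoint
translates `y + P 1`: every `b ∈ B \ L` has `b - y ∈ P 1 - P 1 ⊆ P 2` for a `y ∈ J`, and
`m |J| ≤ ∑_(y ∈ J) |B ∩ (y + P 1)| ≤ |B|`.  Energy: `b₁, b₂ ∈ L`, then `b₃ ∈ L` with `b₁ - b₃ ∈ P(1/2) - P(1/2) ⊆ P 1`, i.e.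
`b₃ ∈ B ∩ (b₁ + P 1)` (`P 1 = -P 1`): at most `m` choices; `b₄` is determined. -/
def HVY_stmt : Prop := ∀ (p : ℕ) [Fact p.Prime] (d : ℕ) (P : ℝ → Finset (ZMod p)) (B : Finset (ZMod p)) (m : ℕ),
  IsSys p d P → ∃ L J : Finset (ZMod p), L ⊆ B ∧ (∀ b ∈ B, b ∉ L → ∃ y ∈ J, b - y ∈ P 2) ∧
    m * J.card ≤ B.card ∧ ES (P (1 / 2)) L ≤ m * L.card ^ 2

/-- COX (medium-long, numeric; from SIZ, MEH, P3S, DSY, HVY, COH; core (a); compare `COA`).  We may assume `ε ≤ 1/2`.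
`c₁ = ε/4`, `κ = c₁/5`, `c₀ = κ/8`.  SIZ with `c₀` (`|X| ≤ |P 1| ≤ p^(3/4-ε) ≤ p^(1-ε)`): first alternative done.
Second: `m = ⌊p^(1/4-c₁)⌋`, `L, J` from HVY, `B \ L ⊆ J + P 2`, `|J| ≤ |B|/m ≤ 2 p^(1/4+c₁+c₀)`, so
`|P 1| |J| ≤ 2 p^(1-ε+c₁+c₀) ≤ p^(1-ε/2)`: COH with `ε/2` for `B \ L`.  For `L`: MEH with `H = P(1/2)`, `κ`, `Λ = 1000 D`.
Suppose `p^(1/2-κ/8) ≤ |L| ≤ p^(1/2+κ/8)`: P3S with `S = Sk P (1/16)` and `D` of DSY (`x + y ∈ P 1` for `x, y ∈ P(1/2)`):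
`ES ≤ p^(1/4-c₁) |L|²`, `|H| p² + p^(11/4) ≤ 2 p^(11/4)`, fourth root `≤ (2 p^(3-c₁) |L|²)^(1/4) ≤
2 p^(3/4-c₁/4) |L|^(1/2) ≤ 2 p^(1/2-c₁/4+κ/16) |L| ≤ 2 p^(1/2-κ) |L|`, and `|H| |L| ≤ p^(3/4-ε) |L| ≤ p^(1/4+κ/8) |L|² ≤
p^(1/2-κ) |L|²`.  Add. -/
def COX_stmt : Prop := ∀ (d : ℕ) (ε : ℝ), 0 < ε → ∃ (c : ℝ) (p₀ : ℕ), 0 < c ∧
  ∀ (p : ℕ) [Fact p.Prime], p₀ < p → ∀ (χ : MulChar (ZMod p) ℂ) (P : ℝ → Finset (ZMod p))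
  (X B : Finset (ZMod p)) (β : ZMod p → ℂ), χ ≠ 1 → (∀ b, ‖β b‖ ≤ 1) →
    IsSys p d P → ((P 1).card : ℝ) ≤ (p : ℝ) ^ (3 / 4 - ε) → X ⊆ P (1 / 2) →
    ((B.card : ℝ) ≤ (p : ℝ) ^ (1 - ε) ∨ (p : ℝ) ^ ε ≤ X.card) →
      ∑ x ∈ X, ‖FB χ B β x‖ ≤ (p : ℝ) ^ (-c) * (Real.sqrt (p * (X.card * B.card)) + X.card * B.card)

/-- TRY (short; adapt `TRZ`; translates of a general host `Q`). -/
def TRY_stmt : Prop := ∀ (p : ℕ) [Fact p.Prime] (χ : MulChar (ZMod p) ℂ) (Q X Y Z : Finset (ZMod p))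
  (β : ZMod p → ℂ) (V : ℝ), (∀ b, ‖β b‖ ≤ 1) → (∀ x ∈ X, ∃ z ∈ Z, x - z ∈ Q) →
  (∀ z ∈ Z, ∀ X' : Finset (ZMod p), X'.card ≤ X.card → X' ⊆ Q → ∀ β' : ZMod p → ℂ,
    (∀ b, ‖β' b‖ ≤ 1) → ∑ x ∈ X', ‖FB χ (Y.image fun y => z - y) β' x‖ ≤ V) →
    ∑ x ∈ X, ‖∑ y ∈ Y, β y * χ (x - y)‖ ≤ Z.card * V

/-- the hypothesis on `X`, `Y`: `X` in the translates `z + H`, `z ∈ Z`, of a set of small doubling, and `|H| ≤ p^(3/4-ε)`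
with `Y` arbitrary, or `Y` in the translates `w + H`, `w ∈ W`, `|H| |W| ≤ p^(1-ε)` -/
def HypS (p : ℕ) (ε K : ℝ) (X Y Z W H : Finset (ZMod p)) : Prop :=
  ((H + H).card : ℝ) ≤ K * (H.card : ℝ) ∧ X ⊆ Z + H ∧
  (((H.card : ℝ) ≤ (p : ℝ) ^ (3 / 4 - ε) ∧ ((Y.card : ℝ) ≤ (p : ℝ) ^ (1 - ε) ∨ (p : ℝ) ^ ε ≤ X.card)) ∨
    ((H.card : ℝ) * W.card ≤ (p : ℝ) ^ (1 - ε) ∧ Y ⊆ W + H))

/-- TRG (medium; from FRE, PKC, COX, COH, TRY; compare `TRS`).  `X` empty: trivial; so `H` is nonempty.  FRE: `d, C` (from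
`K`), `P, F`: `|F| ≤ C`, `|P 1| ≤ C |H|`, `H ⊆ F + P 1`.  PKC: `P 1 ⊆ T + P(1/2)`, `|T| ≤ 5^d`.  `Z' = Z + F + T`:
`|Z'| ≤ p^δ C 5^d`, `X ⊆ Z' + P(1/2)`; TRY with `Q = P(1/2)`, `V = p^(-c) ((p |X| |Y|)^(1/2) + |X| |Y|)`.
(b) `B = {z - y} ⊆ {z - w - f} + P 1 ⊆ .. + P 2` (`-P 1 = P 1`), at most `C |W|` translates,
`|P 1| C |W| ≤ C² p^(1-ε) ≤ p^(1-ε/2)`: COH with `ε/2`.
(a) `|P 1| ≤ C p^(3/4-ε) ≤ p^(3/4-ε/2)`; if `|X'| < p^(ε/2)` and `|Y| > p^(1-ε/2)`, then `p^ε ≤ |X|` and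
`S ≤ |X'| |Y| ≤ p^(-ε/2) |X| |Y|`; otherwise COX with `ε/2`.  `|B| = |Y|`.  `C 5^d p^(δ-c) ≤ p^(-δ)` for `δ = c/3`, large `p`. -/
def TRG_stmt : Prop := ∀ K ε : ℝ, 0 < ε → ∃ (δ : ℝ) (p₀ : ℕ), 0 < δ ∧ ∀ (p : ℕ) [Fact p.Prime], p₀ < p →
  ∀ (χ : MulChar (ZMod p) ℂ) (X Y Z W H : Finset (ZMod p)) (β : ZMod p → ℂ), χ ≠ 1 → (∀ b, ‖β b‖ ≤ 1) →
    (Z.card : ℝ) ≤ (p : ℝ) ^ δ → HypS p ε K X Y Z W H →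
      ∑ x ∈ X, ‖∑ y ∈ Y, β y * χ (x - y)‖ ≤
        (p : ℝ) ^ (-δ) * (Real.sqrt (p * (X.card * Y.card)) + X.card * Y.card)

/-- OTG (short; from TRG, TRS, OLD, MOI; THE THEOREM; compare `OTF`). -/
def OTG_stmt : Prop := ∀ K ε : ℝ, 0 < ε → ∃ (δ : ℝ) (p₀ : ℕ), 0 < δ ∧ ∀ (p : ℕ) [Fact p.Prime], p₀ < p →
  ∀ (χ : MulChar (ZMod p) ℂ) (N : ℕ) (X Y Z W H H' : Finset (ZMod p)) (β : ZMod p → ℂ) (a b c d : ZMod p),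
    χ ≠ 1 → (∀ y, ‖β y‖ ≤ 1) → (∀ x ∈ X, c * x + d ≠ 0) → (∀ y ∈ Y, c * y + d ≠ 0) →
    (Z.card : ℝ) ≤ (p : ℝ) ^ δ →
    (HypS p ε K X Y Z W H ∨ HypN p ε N X Y Z W ∨ HypH p ε K δ X Y Z W H H') →
      ∑ x ∈ X, ‖∑ y ∈ Y, β y * χ ((a * x + b) / (c * x + d) - (a * y + b) / (c * y + d))‖ ≤
        (p : ℝ) ^ (-δ) * (Real.sqrt (p * (X.card * Y.card)) + X.card * Y.card)

end Pool.Agent.OG
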