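import Pool.Agent.helper64.OT.All
import Pool.Agent.helper85.PG.Final
import Pool.Agent.helper71.OT.PSS
import Pool.Agent.helper22.OT.WSS
import Pool.Agent.helper18.OT.FMS
import Pool.Agent.helper43.OT.MFS
import Pool.Agent.helper51.OT.DIS
import Pool.Agent.helper28.OT.MGS
import Pool.Agent.helper25.OT.DLS
import Pool.Agent.helper14.OT.SMS
import Pool.Agent.helper57.OT.M4S
import Pool.Agent.helper27.OT.PGT
import Pool.Agent.helper50.OT.LST
import Pool.Agent.helper88.OT.GNT
import Pool.Agent.helper73.OT.D1S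
import Pool.Agent.helper88.OT.PCA
import Pool.Agent.helper41.OT.PCB
import Pool.Agent.helper98.OT.P3S
import Pool.Agent.helper9.OT.DUA
import Pool.Agent.helper29.OT.SUP
import Pool.Agent.helper16.OT.DSY
import Pool.Agent.helper33.OT.ANG
import Pool.Agent.helper78.OT.MEH
import Pool.Agent.helper23.OT.CEN
import Pool.Agent.helper31.OT.UNH
import Pool.Agent.helper40.OT.DYH
import Pool.Agent.helper23.OT.COH
import Pool.Agent.helper92.OT.HVY
import Pool.Agent.helper30.OT.COX
import Pool.Agent.helper49.OT.TRY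
import Pool.Agent.helper54.OT.TRG
import Pool.Agent.helper32.OT.OTG
import Pool.Agent.helper24.OT.SPX

/-!
# Project OT (MP_f6e9a2_nt): assembly of the second theorem (hosts of small doubling)
-/

set_option autoImplicit false

namespace Pool.Agent.OG

open Finset Pool.Agent.OT Pool.Agent.SPI

theorem p_MGS : MGS_stmt := MGS FMS (MFS PSS CRR CSB) (DIS PSS) HHB HHS PSS

theorem p_M4S : M4S_stmt := M4S p_MGS (DLS PSS WSS GQ GF) (SMS WSS EXC p_INN)

theorem p_D1S : D1S_stmt := D1S (PGT GSI PLN) (LST PLN) (GNT p_W1 PLN) PLN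

theorem p_P3S : P3S_stmt := P3S p_M4S (PCA PSS) PCB PC3

theorem p_DSY : DSY_stmt :=
  DSY (DUA PLN Pool.Agent.helper85.PG.pkc) (SUP PLN) Pool.Agent.helper85.PG.pkc

theorem p_MEH : MEH_stmt := MEH p_SIZ

theorem p_UNH : UNH_stmt := UNH p_MEH p_D1S p_DSY ANG Pool.Agent.helper85.PG.pkc

theorem p_COH : COH_stmt := COH p_UNH DYH CEN Pool.Agent.helper85.PG.pkc

theorem p_COX : COX_stmt := COX p_SIZ p_MEH p_P3S p_DSY HVY p_COH

theorem p_TRG : TRG_stmt :=
  TRG Pool.Agent.helper85.PG.fre Pool.Agent.helper85.PG.pkc p_COX p_COH TRY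

theorem p_OTG : OTG_stmt := OTG p_TRG p_TRS OLD MOI

end Pool.Agent.OG
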