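import Mathlib
import Pool.Agent.helper64.OT.Defs
import Pool.Agent.helper82.KL.D

/-!
# Project OT (MP_f6e9a2_nt), block W: the exponential sum bounds W1 and W2

The machinery of `helper82` is used: `Pool.Agent.helper82.KL.{CMult, cA, SA, newton, cA_zero, SA_eq}`
(`Pool/Agent/helper82/KL/A.lean`; model proofs for additive characters in `KL/B.lean`, `KL/D.lean`),
`Pool.Agent.helper82.Weil.{Mon, Irr, normChar, norm_sub_algebraMap, root_bound, weil_shift, ZZ, ZZ_bound}`.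

RULES.  As in `SpecM.lean`: import this file, namespace `Pool.Agent.OT`, `theorem X ... : X_stmt`, file
`Pool/Agent/<seat>/OT/X.lean`.  No double quotes, no native_decide, no convert / congr!.
`Λ` completely multiplicative on monic polynomials (`CMult`), `cA Λ n = ∑_(g monic, deg n) Λ(g)`, `SA Λ r` = sum over
closed points, `n cA_n = ∑_(r=1..n) SA_r cA_(n-r)` (`newton`), `SA_eq`: for `[K:k] = r`:
`SA Λ r = ∑_(x ∈ K) Λ(minpoly x)^(r/deg x)`.
-/

set_option autoImplicit false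

namespace Pool.Agent.OT

open Finset Polynomial Pool.Agent.helper82.Weil Pool.Agent.helper82.KL

/-! ### Root bound for a family -/

/-- WNW (short-medium; Newton's identities for `∏ (1 - α_j X)`).  Induction on `s`: if `L` satisfies
`n L_n = ∑_(r=1..n) S_r L_(n-r)`, then `M = (1 - a X) L` satisfies it with `S_r - a^r`.  (Coefficients
`M_n = L_n - a L_(n-1)`; or with power series: `X M' = (1 - aX) X L' - a X L` and
`(∑_(r≥1) a^r X^r) (1 - a X) = a X`.) -/
def WNW_stmt : Prop := ∀ (ι : Type) (s : Finset ι) (α : ι → ℂ) (n : ℕ),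
  (n : ℂ) * (∏ j ∈ s, (1 - C (α j) * X : ℂ[X])).coeff n =
    ∑ r ∈ Icc 1 n, (-∑ j ∈ s, α j ^ r) * (∏ j ∈ s, (1 - C (α j) * X : ℂ[X])).coeff (n - r)

/-- WFA (short).  `L = lc ∏ (X - z_j)` over the roots (`IsAlgClosed.splits`), `z_j ≠ 0`, `α_j = z_j⁻¹`,
`lc ∏ (-z_j) = L.coeff 0 = 1`.  (`L.roots.toList`, `Fin` of its length `= natDegree`.) -/
def WFA_stmt : Prop := ∀ L : ℂ[X], L.coeff 0 = 1 →
  ∃ α : Fin L.natDegree → ℂ, (∀ j, α j ≠ 0) ∧ L = ∏ j, (1 - C (α j) * X)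

/-- WRB (medium; from WNW, WFA; root bound for a family, step `s₀`).  `L_i = ∏_j (1 - α_(ij) X)` (WFA).  By WNW and
induction (`L_i.coeff 0 = 1`, the recursion determines `S`) `S_i(r) = -∑_j α_(ij)^r` for `r ≥ 1`.  Let
`P = ∏_(i,j) (1 - α_(ij)^(s₀) X)` (index set a sigma type); WNW: `P` satisfies Newton's identities with
`S'(s) = -∑ α_(ij)^(s₀ s) = ∑_i S_i(s₀ s)` (`s ≥ 1`).  `root_bound` (`Pool/Agent/helper82/Weil/I.lean`) for `P`, `S'`,
`R^(s₀)`: every root `z = α_(ij)^(-s₀)` has `1 ≤ R^(s₀) |z|`, so `|α_(ij)| ≤ R`.  `L_i.coeff 1 = S_i(1) = -∑_j α_(ij)`,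
`natDegree` terms. -/
def WRB_stmt : Prop := ∀ (ι : Type) [Fintype ι] (L : ι → ℂ[X]) (S : ι → ℕ → ℂ) (R C' : ℝ) (s₀ : ℕ), 0 < R → 0 < s₀ →
  (∀ i, (L i).coeff 0 = 1) →
  (∀ i, ∀ n : ℕ, (n : ℂ) * (L i).coeff n = ∑ r ∈ Icc 1 n, S i r * (L i).coeff (n - r)) →
  (∀ s : ℕ, 0 < s → ‖∑ i, S i (s₀ * s)‖ ≤ C' * R ^ (s₀ * s)) →
    ∀ i, ‖(L i).coeff 1‖ ≤ (L i).natDegree * R

/-! ### W1 -/

/-- `Λ_u(g) = χ((-1)^n g(-r)) conj χ((-1)^n g(0)) ps(-u nextCoeff g)`, `n = deg g` -/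
noncomputable def LM {p : ℕ} [NeZero p] (χ : MulChar (ZMod p) ℂ) (r u : ZMod p) (g : (ZMod p)[X]) : ℂ :=
  χ ((-1) ^ g.natDegree * g.eval (-r)) * (starRingEnd ℂ) (χ ((-1) ^ g.natDegree * g.eval 0)) *
    ps (-(u * g.nextCoeff))

/-- WMC (short).  `eval`, `(-1)^natDegree` multiplicative for monic polynomials, `Monic.nextCoeff_mul`
(compare `Lk_cmult` in `KL/B.lean`). -/
def WMC_stmt : Prop := ∀ (p : ℕ) [Fact p.Prime] (χ : MulChar (ZMod p) ℂ) (r u : ZMod p), CMult (LM χ r u)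

/-- WM1 (short).  `g = X - C x`: `(-1) g(-r) = x + r`, `(-1) g(0) = x`, `nextCoeff = -x` (compare `cA_one`). -/
def WM1_stmt : Prop := ∀ (p : ℕ) [Fact p.Prime] (χ : MulChar (ZMod p) ℂ) (r u : ZMod p),
  cA (LM χ r u) 1 = ∑ t : ZMod p, ps (u * t) * (starRingEnd ℂ) (χ t) * χ (t + r)

/-- WMH (short-medium; compare `cA_high` in `KL/B.lean`).  `n ≥ 3`: the bijection
`g ↦ g + C t * X^(n-3) * (X^2 + C r * X)` of the monic polynomials of degree `n` keeps `g(0)` and `g(-r)` and adds `t` to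
the next coefficient, so `cA = ps(-u t) cA`, and `ps(-u t) ≠ 1` for `t = 1/u` (`ps` is injective:
`ZMod.injective_stdAddChar` or primitive). -/
def WMH_stmt : Prop := ∀ (p : ℕ) [Fact p.Prime] (χ : MulChar (ZMod p) ℂ) (r u : ZMod p) (n : ℕ), u ≠ 0 → 3 ≤ n →
  cA (LM χ r u) n = 0

/-- WMS (short-medium; compare `Lk_minpoly`, `SA_Lk`).  `SA_eq`; for `P = minpoly x`: `(-1)^deg P(-r)` and
`(-1)^deg P(0)` to the power `m/deg` are `N(x + r)` and `N(x)` (`norm_sub_algebraMap` with `a = -r`, `a = 0`), and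
`-nextCoeff` times `m/deg` is the trace. -/
def WMS_stmt : Prop := ∀ (p : ℕ) [Fact p.Prime] (K : Type) [Field K] [Fintype K] [Algebra (ZMod p) K]
  (χ : MulChar (ZMod p) ℂ) (r u : ZMod p) (m : ℕ), Module.finrank (ZMod p) K = m →
    SA (LM χ r u) m = ∑ x : K, normChar K χ (x + algebraMap (ZMod p) K r) *
      (starRingEnd ℂ) (normChar K χ x) * ps (u * Algebra.trace (ZMod p) K x)

open Classical in
/-- WAS (medium; Artin-Schreier).  `w ↦ w^p - w` is an additive homomorphism `K → K` whose kernel is the prime field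
(`p` elements: the roots of `X^p - X`), and its image is contained in the kernel of the trace
(`tr (w^p) = tr w`: Frobenius is an automorphism; `Algebra.trace_eq_of_algEquiv`), both have `|K|/p` elements (the trace
is surjective), so the image is the kernel of the trace. -/
def WAS_stmt : Prop := ∀ (p : ℕ) [Fact p.Prime] (K : Type) [Field K] [Fintype K] [Algebra (ZMod p) K] (y : K),
  ((univ.filter fun w : K => w ^ p - w = y).card : ℂ) = if Algebra.trace (ZMod p) K y = 0 then (p : ℂ) else 0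

/-- WMT (medium; from WMS, WAS).  `∑_j ps(j u tr x)` is `p` if `tr(u x) = 0` and `0` otherwise, i.e. the number of `w` with
`w^p - w = u x` (WAS).  So the sum is `∑_w χ_K((w^p-w)/u + r) conj χ_K((w^p-w)/u)`; take the factor
`χ_K(1/u) conj χ_K(1/u) = 1` out. -/
def WMT_stmt : Prop := ∀ (p : ℕ) [Fact p.Prime] (K : Type) [Field K] [Fintype K] [Algebra (ZMod p) K]
  (χ : MulChar (ZMod p) ℂ) (r u : ZMod p) (m : ℕ), u ≠ 0 → Module.finrank (ZMod p) K = m →
    ∑ j : ZMod p, SA (LM χ r (j * u)) m = ∑ w : K,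
      normChar K χ (w ^ p - w + algebraMap (ZMod p) K (u * r)) * (starRingEnd ℂ) (normChar K χ (w ^ p - w))

/-- WMP (short-medium; Weil's bound for split polynomials).  `w^p - w = ∏_(i ∈ ZMod p) (w - i)` and, with
`θ^p - θ = c`, `w^p - w + c = ∏_i (w + θ - i)` (Frobenius is additive).  So the sum is `ZZ χ_K x y` with
`k = p`, `x_i = θ - i`, `y_i = -i` (index `Fin p`); all `2p` numbers are different (`θ - i = -j` gives `θ` in the prime
field, `θ^p - θ = 0 ≠ c`): `Nondeg`, `ZZ_bound`, `normChar_ne_one`. -/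
def WMP_stmt : Prop := ∀ (p : ℕ) [Fact p.Prime] (K : Type) [Field K] [Fintype K] [Algebra (ZMod p) K]
  (χ : MulChar (ZMod p) ℂ) (c θ : K), χ ≠ 1 → c ≠ 0 → θ ^ p - θ = c →
    ‖∑ w : K, normChar K χ (w ^ p - w + c) * (starRingEnd ℂ) (normChar K χ (w ^ p - w))‖ ≤
      2 * p * Real.sqrt (Fintype.card K)

/-- WFD (short-medium; compare `exists_field` in `KL/D.lean`).  `K₀` = splitting field of `f`, `N = [K₀ : F_p]`,
`K = FiniteField.Extension K₀ p s`. -/
def WFD_stmt : Prop := ∀ (p : ℕ) [Fact p.Prime] (f : (ZMod p)[X]), ∃ N : ℕ, 0 < N ∧ ∀ s : ℕ, 0 < s →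
  ∃ (K : Type) (_ : Field K) (_ : Fintype K) (_ : Algebra (ZMod p) K),
    Module.finrank (ZMod p) K = N * s ∧ (f.map (algebraMap (ZMod p) K)).Splits

/-- W1A (medium; from WRB WMC WM1 WMH WMS WMT WMP WFD; the bound).  `u = 0`: `ZZ_bound` with `k = 1` (`x = r`, `y = 0`):
`≤ 2 p^(1/2)`.  `u ≠ 0`: `ι = {j : ZMod p // j ≠ 0}`, `L_j = ∑_(n<3) C (cA (LM χ r (j u)) n) X^n`,
`S_j = SA (LM χ r (j u))`: `cA_zero`, `newton`, WMH.  WFD for `X^p - X - C (u r)` gives the step `s₀ = N` and `K` with a root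
`θ` (degree `p ≥ 1`, splits), `|K| = p^(N s)`.  WMT and WMP (`c = u r ≠ 0`): `|∑_(all j) SA| ≤ 2 p |K|^(1/2)`; the term
`j = 0`: by WMS it is `∑_x χ_K(x+r) conj χ_K(x)`, at most `2 |K|^(1/2)` (`ZZ_bound`, `k = 1`).  So `C' = 4 p`,
`R = p^(1/2)`; WRB for `j = 1`: `|cA_1| ≤ 2 p^(1/2)`; WM1. -/
def W1A_stmt : Prop := W1_stmt

/-! ### W2: the resultant L-function -/

/-- `Λ_f(g) = χ(Res(f, g))` -/
noncomputable def LR {p : ℕ} (χ : MulChar (ZMod p) ℂ) (f g : (ZMod p)[X]) : ℂ := χ (resultant f g)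

/-- RRE (short-medium).  `resultant_map_map`, and `resultant_eq_prod_eval` for the split monic polynomial `f.map`
(`natDegree` is preserved by `map`). -/
def RRE_stmt : Prop := ∀ (p : ℕ) [Fact p.Prime] (K : Type) [Field K] [Algebra (ZMod p) K] (f g : (ZMod p)[X]),
  f.Monic → (f.map (algebraMap (ZMod p) K)).Splits →
    algebraMap (ZMod p) K (resultant f g) =
      ((f.map (algebraMap (ZMod p) K)).roots.map fun β => aeval β g).prod

/-- RRC (short; from RRE with the splitting field, or `resultant_mul_right`). -/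
def RRC_stmt : Prop := ∀ (p : ℕ) [Fact p.Prime] (χ : MulChar (ZMod p) ℂ) (f : (ZMod p)[X]), f.Monic →
  CMult (LR χ f)

/-- RR1 (short).  `Res(f, X - C x) = (-1)^d f(x)` (`resultant_X_sub_C_right`); `Mon 1` as in `cA_one` (`KL/B.lean`). -/
def RR1_stmt : Prop := ∀ (p : ℕ) [Fact p.Prime] (χ : MulChar (ZMod p) ℂ) (f : (ZMod p)[X]), f.Monic →
  cA (LR χ f) 1 = χ ((-1) ^ f.natDegree) * ∑ x : ZMod p, χ (f.eval x)

/-- RRN (medium; the norm of `g(x)`).  `K / F_p` is Galois; `P = minpoly x` splits in `K`.  `N(g(x)) = ∏_σ g(σ x)`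
(`Algebra.norm_eq_prod_automorphisms`), and each root `β` of `P` is `σ x` for exactly `m/deg P` automorphisms `σ`; use
RRE for `P`.  (Or: `N_(K/k) = N_(k(x)/k)^(m/deg)` on `k(x)`, and embeddings of `k(x)` correspond to the roots:
`Algebra.norm_eq_prod_embeddings`, `prod_embeddings_eq_finrank_pow`.) -/
def RRN_stmt : Prop := ∀ (p : ℕ) [Fact p.Prime] (K : Type) [Field K] [Fintype K] [Algebra (ZMod p) K] (x : K)
  (g : (ZMod p)[X]), Algebra.norm (ZMod p) (aeval x g) =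
    (resultant (minpoly (ZMod p) x) g) ^ (Module.finrank (ZMod p) K / (minpoly (ZMod p) x).natDegree)

/-- RRG (medium; from RRE, RRN).  Let `f₁` be a monic irreducible factor, `f = f₁ h`; `f₁`, `h` are coprime (separable):
`a f₁ + b h = 1`.  `E = AdjoinRoot f₁` (a finite field), `α` the root, `minpoly α = f₁`.  Choose `c ≠ 0` in `F_p` with
`χ(c) ≠ 1` and `y ∈ E` with `N(y) = c` (`FiniteField.norm_surjective`), `y = g₁(α)`.  `g₀ = g₁ b h + a f₁ =
1 + h (b g₁ - b)`: `g₀(α) = y`, so `Res(f₁, g₀) = N(g₀(α)) = c` (RRN, exponent `1`), and `Res(h, g₀) = 1` as `g₀(β) = 1` at all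
roots of `h` (RRE).  `Res(f, g₀) = Res(f₁, g₀) Res(h, g₀)` (RRE: roots of a product). -/
def RRG_stmt : Prop := ∀ (p : ℕ) [Fact p.Prime] (χ : MulChar (ZMod p) ℂ) (f : (ZMod p)[X]), χ ≠ 1 → f.Monic →
  f.Separable → 0 < f.natDegree → ∃ g₀ : (ZMod p)[X], resultant f g₀ ≠ 0 ∧ LR χ f g₀ ≠ 1

/-- RRH (medium; from RRE, RRG).  `g₀` as in RRG; it is coprime to `f` (RRE: no common root).  For `g` monic of degree
`n ≥ d = deg f` put `g' = (g₀ * (g %ₘ f)) %ₘ f + f * (g /ₘ f)`: monic of degree `n`, `g' ≡ g₀ g mod f`, so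
`Res(f, g') = Res(f, g₀) Res(f, g)` (RRE).  `g ↦ g'` is injective (`g₀` is invertible modulo `f`), so it permutes the
finite set `Mon n`, and `cA = LR χ f g₀ * cA`. -/
def RRH_stmt : Prop := ∀ (p : ℕ) [Fact p.Prime] (χ : MulChar (ZMod p) ℂ) (f : (ZMod p)[X]) (n : ℕ), χ ≠ 1 →
  f.Monic → f.Separable → 0 < f.natDegree → f.natDegree ≤ n → cA (LR χ f) n = 0

/-- RRS (short-medium; from RRN).  `SA_eq`; `Res(f, P) = (-1)^(d deg P) Res(P, f)` (`resultant_comm`), `P = minpoly x`, to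
the power `m/deg P`: `(-1)^(d m) N(f(x))` (`deg P` divides `m`: `minpoly.degree_dvd`). -/
def RRS_stmt : Prop := ∀ (p : ℕ) [Fact p.Prime] (K : Type) [Field K] [Fintype K] [Algebra (ZMod p) K]
  (χ : MulChar (ZMod p) ℂ) (f : (ZMod p)[X]) (m : ℕ), f.Monic → Module.finrank (ZMod p) K = m →
    SA (LR χ f) m = χ ((-1) ^ (f.natDegree * m)) * ∑ x : K, normChar K χ (aeval x f)

/-- RRB (short-medium; Weil's bound for split polynomials).  `aeval x f = ∏_(β ∈ roots) (x - β)`, the roots are simple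
(separable), `d = deg f` of them; `weil_shift` for `ι` = the roots, exponents `1`: `≤ (d-1) |K|^(1/2)`. -/
def RRB_stmt : Prop := ∀ (p : ℕ) [Fact p.Prime] (K : Type) [Field K] [Fintype K] [Algebra (ZMod p) K]
  (χ : MulChar (ZMod p) ℂ) (f : (ZMod p)[X]), χ ≠ 1 → f.Monic → f.Separable → 0 < f.natDegree →
    (f.map (algebraMap (ZMod p) K)).Splits →
      ‖∑ x : K, normChar K χ (aeval x f)‖ ≤ f.natDegree * Real.sqrt (Fintype.card K)

/-- RRW (medium; from WRB RRC RR1 RRH RRS RRB WFD; Weil's bound for a separable polynomial).  `L = ∑_(n<d) C (cA_n) X^n`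
(RRH), one element family, `S = SA`, step `s₀ = N` from WFD, `C' = d`, `R = p^(1/2)`; `|cA_1| ≤ natDegree L · R ≤
d p^(1/2)`; RR1 (`|χ((-1)^d)| = 1`). -/
def RRW_stmt : Prop := ∀ (p : ℕ) [Fact p.Prime] (χ : MulChar (ZMod p) ℂ) (f : (ZMod p)[X]), χ ≠ 1 → f.Monic →
  f.Separable → 0 < f.natDegree → ‖∑ x : ZMod p, χ (f.eval x)‖ ≤ f.natDegree * Real.sqrt p

/-- QD1 (short-medium; one quadratic polynomial, elementary).  `D = b² - 4 a c ≠ 0`.  If `a = 0`: `b ≠ 0`, `x ↦ b x + c` is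
a bijection, the sum is `0`.  If `a ≠ 0`: `4 a (a x² + b x + c) = (2 a x + b)² - D`, so the sum is
`χ₂(a) ∑_y χ₂(y² - D)`, and `∑_y χ₂(y² - D) = -1` for `D ≠ 0` (count solutions of `y² - z² = D`; or: RRW with
`f = X² - D` gives a worse constant, so do it elementarily; `|...| ≤ 1` is the claim). -/
def QD1_stmt : Prop := ∀ (p : ℕ) [Fact p.Prime], p ≠ 2 → ∀ a b c : ZMod p, b ^ 2 - 4 * a * c ≠ 0 →
  |∑ x : ZMod p, ((quadraticChar (ZMod p) (a * x ^ 2 + b * x + c) : ℤ) : ℝ)| ≤ 1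

/-- CPQ (short-medium).  Both discriminants are `≠ 0`, so both polynomials are nonzero of degree `1` or `2`.  If they are
not coprime, their gcd `g` has degree `1` or `2`.  Degree `1`: a common root.  Degree `2`: both are constant multiples of
`g` (degree `2`), so proportional, excluded. -/
def CPQ_stmt : Prop := ∀ (p : ℕ) [Fact p.Prime], p ≠ 2 → ∀ a b c a' b' c' : ZMod p,
  b ^ 2 - 4 * a * c ≠ 0 → b' ^ 2 - 4 * a' * c' ≠ 0 →
  (¬ ∃ κ : ZMod p, κ ≠ 0 ∧ a' = κ * a ∧ b' = κ * b ∧ c' = κ * c) →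
    IsCoprime (C a * X ^ 2 + C b * X + C c : (ZMod p)[X]) (C a' * X ^ 2 + C b' * X + C c') ∨
      ∃ x : ZMod p, a * x ^ 2 + b * x + c = 0 ∧ a' * x ^ 2 + b' * x + c' = 0

/-- W2A (medium; from RRW, QD1, CPQ; the bound).  `P = a x² + b x + c`, `Q` the other one, `D`, `D'` the discriminants.
If `D = 0`: `D' ≠ 0` and `P = a (x - α)²` (`a ≠ 0`, `α = -b/(2a)`) or `P = c` constant: the sum is `χ₂(a)` times the sum of
`χ₂(Q)` over `x ≠ α`: `≤ 2` by QD1.  `D' = 0`: the same.  Both `≠ 0`: CPQ.  Coprime: `F = P Q` is separable (`P` separable since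
`D ≠ 0`: `P'^2 - 4 a P = D`), of degree `2, 3` or `4`; `f = F / leading coefficient` is monic; RRW for the complex valued
quadratic character (`(quadraticChar (ZMod p)).ringHomComp (Int.castRingHom ℂ)`, `≠ 1` as `p ≠ 2`): `≤ 4 p^(1/2)`.
Common root `α`: `P = (x-α)(a x + e)`, `Q = (x-α)(a' x + e')`, so the sum is the sum over `x ≠ α` of
`χ₂((a x + e)(a' x + e'))`, a polynomial `a a' x² + (a e' + a' e) x + e e'` with discriminant `(a e' - a' e)²`, which is
`≠ 0`: otherwise `P`, `Q` would be proportional (`D, D' ≠ 0` exclude zero factors): `≤ 1 + 1` by QD1. -/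
def W2A_stmt : Prop := W2_stmt

end Pool.Agent.OT
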