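import Mathlib
import Pool.Agent.helper64.OT.SpecF

/-!
# Project OT, third theorem (MP_f6e9a2_nt): hosts which are only LOCALLY structured

THEOREM (`TRL_stmt`): `X` in `|Z|` translates of a set `V` of small doubling, `|V| ≥ p^ε`, `Z` ARBITRARY with
`|Z| |V| ≤ p^(1/2+δ)`; `Y` ARBITRARY.  Then
`∑_(x ∈ X) |∑_(y ∈ Y) β_y χ(x-y)| ≤ p^(-δ) ((p |X| |Y|)^(1/2) + |X| |Y|)`.

IDEA.  `V` contains an arithmetic progression of length `h = p^κ`; after a dilation `X` lies in few cells `[j h, (j+1) h)`.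
Light part of `B = -Y` (at most `m = h p^(-κ₁)` points in every cell): average over the shifts `y < h`; the correlations
`TG G c c'` have small fourth moment (Weil), and the multiplicities `mm h B c c'` have small second moment
(local energy `≤ 4 m |B|²`).  Heavy part: it lies in few cells too, so both sets are covered by few cells; in the tile
`(j, i)` use `QRR` (Cauchy-Schwarz in residue classes) with `RR` small except for few points (`BDC`, the proof of `BDS`).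

RULES.  Import this file, namespace `Pool.Agent.OL`, `open Finset Pool.Agent.OT Pool.Agent.SPI Pool.Agent.helper85.PG`,
`open scoped Pointwise`.  Every `X_stmt` is proved in `Pool/Agent/<seat>/OT/X.lean`, `theorem X ... : X_stmt`, exact
theorem line in the lock note.  Auxiliary lemmas prefixed `X_`.  No double quotes, no native_decide, no convert / congr!.
-/

set_option autoImplicit false

namespace Pool.Agent.OL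

open Finset Pool.Agent.OT Pool.Agent.SPI Pool.Agent.helper85.PG
open scoped Pointwise

/-- the union of the cells `[j h, (j+1) h)`, `j ∈ J` -/
def CU {p : ℕ} [NeZero p] (h : ℕ) (J : Finset ℕ) : Finset (ZMod p) := univ.filter fun x => x.val / h ∈ J

/-- the cells which contain a point `x + y`, `x` in a cell `j ∈ J`, `y < h` -/
def J2 (J : Finset ℕ) : Finset ℕ := insert 0 (J ∪ J.image fun j => j + 1)

/-- the correlation `∑_(x ∈ G) χ(x + c) conj χ(x + c')` -/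
noncomputable def TG {p : ℕ} [NeZero p] (χ : MulChar (ZMod p) ℂ) (G : Finset (ZMod p)) (c c' : Option (ZMod p)) : ℂ :=
  ∑ x ∈ G, ch χ c x * (starRingEnd ℂ) (ch χ c' x)

/-- points of `S` in different cells -/
def Sep {p : ℕ} (h : ℕ) (S : Finset (ZMod p)) : Prop := ∀ s ∈ S, ∀ s' ∈ S, s.val / h = s'.val / h → s = s'

/-! ### The light part -/

/-- GCL (short).  `(x + y).val` is `x.val + y` or `x.val + y - p < h` (`y < h`); `(j h + r + y)/h ∈ {j, j+1}`.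
`|CU h J| ≤ h |J|`: every cell has at most `h` elements. -/
def GCL_stmt : Prop := ∀ (p : ℕ) [Fact p.Prime] (h : ℕ) (J : Finset ℕ), 0 < h →
  (∀ x ∈ (CU h J : Finset (ZMod p)), ∀ y < h, x + (y : ZMod p) ∈ (CU h (J2 J) : Finset (ZMod p))) ∧
  (CU h J : Finset (ZMod p)).card ≤ h * J.card

/-- M4H (medium; adapt `MFS`, `Pool/Agent/helper43/OT/MFS.lean`, with the indicator function of `G` (`∑ = |G|`) instead of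
`psS S`).  `FME_gen` (`Pool/Agent/helper25/OT/FME.lean`): `∑_(c,c' ∈ Option) |TG|⁴ = ∑_(x ∈ G⁴) |CS(x)|²`; `MF1_point`
(`Pool/Agent/helper24/OT/MF1.lean`), `HH ≤ 4 p` (HHB).  For given `x` with `(x₁-x₄)(x₂-x₃) ≠ 0` at most one `lam` has
`qq lam x = 0`; if it is `0`, then `qq lam x = 0` for at most `p` values and only if `(x₁-x₃)(x₂-x₄) = 0`: four patterns with
at most `|G|²` quadruples each.  Total `≤ 4 p (|G|⁴ + 4 |G|² p) + 3 |G|² (p+1)² + 54 |G|³ p`, and `|G| ≤ p`. -/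
def M4H_stmt : Prop := ∀ (p : ℕ) [Fact p.Prime] (χ : MulChar (ZMod p) ℂ) (G : Finset (ZMod p)), χ ≠ 1 →
  ∑ c : ZMod p, ∑ c' ∈ univ.filter (fun c' : ZMod p => c ≠ c'), ‖TG χ G (some c) (some c')‖ ^ 4 ≤
    4 * p * (G.card : ℝ) ^ 4 + 100 * (G.card : ℝ) ^ 2 * (p : ℝ) ^ 2

/-- PCH (short-medium; adapt `PC1`, `Pool/Agent/helper54/OT/PC1.lean`).  For `y < h`: `∑_(x ∈ H) |FB(x)|² ≤
∑_(x' ∈ G) |∑_b β_b χ(x' + (b - y))|²` (`x' = x + y`), expand: `∑_(b,b') β_b conj β_b' TG χ G (b-y) (b'-y)`; the terms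
`b = b'` have modulus `≤ |G|`; the others are grouped by `(c,c') = (b-y, b'-y)`.  Average over `y < h`. -/
def PCH_stmt : Prop := ∀ (p : ℕ) [Fact p.Prime] (χ : MulChar (ZMod p) ℂ) (h : ℕ) (H G B : Finset (ZMod p))
  (β : ZMod p → ℂ), 0 < h → (∀ x ∈ H, ∀ y < h, x + (y : ZMod p) ∈ G) → (∀ b, ‖β b‖ ≤ 1) →
    ∑ x ∈ H, ‖FB χ B β x‖ ^ 2 ≤ (G.card : ℝ) * B.card +
      1 / (h : ℝ) * ∑ c : ZMod p, ∑ c' ∈ univ.filter (fun c' : ZMod p => c ≠ c'),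
        ‖TG χ G (some c) (some c')‖ * mm h B c c'

/-- P3H (short-medium; adapt `P3`, `Pool/Agent/helper78/OT/P3.lean`; from M4H, PCH, PC2, PC3).
`(∑ |TG| mm)⁴ ≤ (4 p |G|⁴ + 100 |G|² p²) (h E) (h |B|²)² = h⁴ |B|⁴ (E/h) (..)`. -/
def P3H_stmt : Prop := ∀ (p : ℕ) [Fact p.Prime] (χ : MulChar (ZMod p) ℂ) (h : ℕ) (H G B : Finset (ZMod p))
  (β : ZMod p → ℂ), χ ≠ 1 → 0 < h → h ≤ p → (∀ x ∈ H, ∀ y < h, x + (y : ZMod p) ∈ G) → (∀ b, ‖β b‖ ≤ 1) →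
    ∑ x ∈ H, ‖FB χ B β x‖ ^ 2 ≤ (G.card : ℝ) * B.card +
      B.card * ((EN h B : ℝ) / h * (4 * p * (G.card : ℝ) ^ 4 + 100 * (G.card : ℝ) ^ 2 * (p : ℝ) ^ 2)) ^ (1 / 4 : ℝ)

/-! ### The heavy part: tiles -/

/-- BDC (medium; copy the proof of `BDS`, `Pool/Agent/helper90/SPI/BDS.lean`, with `ζ = 1`: there the set `S` comes from
CEL and satisfies `|S| h² > p^(1/2+κ/4)`, here `S` is given; import that file and use its lemmas `BDS_sum`, `BDS_num`, ...).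
Suppose `|S| h² > p^(1/2+κ/4)`; the contradiction is the same. -/
def BDC_stmt : Prop := ∀ κ : ℝ, 0 < κ → κ ≤ 1 / 4 → ∃ (γ δ : ℝ) (p₀ : ℕ), 0 < γ ∧ γ < κ ∧ 0 < δ ∧
  ∀ (p : ℕ) [Fact p.Prime], p₀ < p → ∀ (χ : MulChar (ZMod p) ℂ) (h M : ℕ), χ ≠ 1 →
    h = ⌊(p : ℝ) ^ κ⌋₊ → M = ⌊(p : ℝ) ^ (κ - γ)⌋₊ → 0 < M ∧ 2 * M ≤ h ∧ 24 * h ≤ p ∧
    ∀ S : Finset (ZMod p), (∀ s ∈ S, (p : ℝ) ^ (-δ) * (h : ℝ) ^ 2 < RR χ 1 h M s) → Sep h S →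
      (S.card : ℝ) * (h : ℝ) ^ 2 ≤ (p : ℝ) ^ (1 / 2 + κ / 4)

/-- TIC (short-medium; a set with few separated points).  (1) CEL.  (2) for `j ∈ J` the class of `j h + b` has
`val = j h + b.val` or `j h + b.val - p`; in each of the two classes of `j` the points `j h + b` are different and
separated (their `val`s differ by multiples of `h`), so each class has at most `R` elements.  (3) for given `j` the map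
`b ↦ j h + b` is injective: at most `|D| ≤ h R`. -/
def TIC_stmt : Prop := ∀ (p : ℕ) [Fact p.Prime] (h : ℕ) (D : Finset (ZMod p)) (R : ℝ), 0 < h →
  (∀ S : Finset (ZMod p), S ⊆ D → Sep h S → (S.card : ℝ) ≤ R) →
    (∀ (J : Finset ℕ) (b : ZMod p), (∀ j ∈ J, j * h < p) →
      (((J.filter fun j => ((j * h : ℕ) : ZMod p) + b ∈ D).card : ℝ) ≤ 2 * R)) ∧
    ∀ (B : Finset (ZMod p)) (j : ℕ), (((B.filter fun b => ((j * h : ℕ) : ZMod p) + b ∈ D).card : ℝ) ≤ h * R)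

/-- TIL (medium; from QRR, RRB, TIC; tiles).  `D = {s : lam h² < RR χ 1 h M s}`, `X_j = cell h X j`, `B_i = cell h B i`.  With
phases `|α_x| = 1`: `S = ∑_(j ∈ cells h X) ∑_(i ∈ cells h B) S_ji`, `S_ji = ∑_(x ∈ X_j) ∑_(b ∈ B_i) α_x β_b χ(x + b)`; put
`x = j h + a`, `b = i h + c` (`a, c < h`), QRR with `ζ = 1`, `s₀ = 0`, `t = j h + i h`:
`|S_ji|² ≤ |X_j| ∑_(b ∈ B_i) RR(j h + b)`.  RR is `≤ lam h²` or (bad, `j h + b ∈ D`) `≤ 3 h²` (RRB), so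
`|S_ji| ≤ |X_j|^(1/2) (lam^(1/2) h |B_i|^(1/2) + 3^(1/2) h n_ji)`, `n_ji = #{b ∈ B_i : j h + b ∈ D}` (`n^(1/2) ≤ n`).
First part: Cauchy, `∑_(j,i) (|X_j| |B_i|)^(1/2) ≤ (#cells X · #cells B)^(1/2) (|X| |B|)^(1/2)`.  Second part:
`∑_(j,i) |X_j|^(1/2) n_ji = ∑_b ∑_(j : bad) |X_j|^(1/2) ≤ ∑_b (2 R)^(1/2) (∑_(j : bad) |X_j|)^(1/2) ≤
(2 R |B|)^(1/2) (∑_j |X_j| #{b : j h + b ∈ D})^(1/2) ≤ (2 R |B|)^(1/2) (|X| h R)^(1/2)`, and `3^(1/2) 2^(1/2) ≤ 3`.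
(`j h < p` for `j ∈ cells h X`.) -/
def TIL_stmt : Prop := ∀ (p : ℕ) [Fact p.Prime] (χ : MulChar (ZMod p) ℂ) (h M : ℕ) (X B : Finset (ZMod p))
  (β : ZMod p → ℂ) (lam R : ℝ), 0 < M → 2 * M ≤ h → 0 ≤ lam → 0 ≤ R → (∀ b, ‖β b‖ ≤ 1) →
  (∀ S : Finset (ZMod p), (∀ s ∈ S, lam * (h : ℝ) ^ 2 < RR χ 1 h M s) → Sep h S → (S.card : ℝ) ≤ R) →
    ∑ x ∈ X, ‖FB χ B β x‖ ≤
      (Real.sqrt lam * h * Real.sqrt ((cells h X).card * (cells h B).card) + 3 * h * R * Real.sqrt h) *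
        Real.sqrt (X.card * B.card)

/-- HVI (short; light and heavy cells).  `L = {b ∈ B : |cell h B (b.val/h)| ≤ m}`, `U = B \ L`; the cells of `L` are cells of
`B`, the same for `U`, so `m |cells h U| ≤ |U| ≤ |B|`. -/
def HVI_stmt : Prop := ∀ (p : ℕ) [Fact p.Prime] (h m : ℕ) (B : Finset (ZMod p)), 0 < h →
  ∃ L U : Finset (ZMod p), L ⊆ B ∧ U ⊆ B ∧ (∀ f : ZMod p → ℂ, ∑ b ∈ B, f b = ∑ b ∈ L, f b + ∑ b ∈ U, f b) ∧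
    (∀ j ∈ cells h L, (cell h L j).card ≤ m) ∧ m * (cells h U).card ≤ B.card

/-! ### Assembly -/

/-- COL (medium-long, numeric; from SIZ, MEL, P3H, GCL, ENL, HVI, BDC, TIL; compare `COA`, `Pool/Agent/helper2/OT/COA.lean`).  We
may assume `ε ≤ 1/4`.  BDC: `γ, δ`.  `c₁ = δ/20`, `κ₁ = 8 c₁`, `κ' = c₁/2`, `c₀ = c₁/16` (for SIZ).  Hypothesis:
`h |cells h X| ≤ p^(1/2+c₁)`, so `|X| ≤ p^(1/2+c₁) ≤ p^(1-ε)`.  SIZ with `c₀`: first alternative done; second: `|X|, |B|`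
are between `p^(1/2-c₀)` and `p^(1/2+c₀)`.  `m = ⌊h p^(-κ₁)⌋` (`≥ h p^(-κ₁)/2`), HVI: `L, U`.
`U`: TIL with `lam = p^(-δ)`, `R = p^(1/2+κ/4)/h²`: `h (#cells X #cells U)^(1/2) ≤ (p^(1/2+c₁) · 2 p^(κ₁) |B|)^(1/2) ≤
2 p^(1/2+(c₁+κ₁+c₀)/2) ≤ 2 p^(1/2+δ/4)`, and `3 h^(3/2) R = 3 p^(1/2+κ/4) h^(-1/2) ≤ 6 p^(1/2-κ/4)`: at most
`(2 p^(-δ/4) + 6 p^(-κ/4)) p^(1/2) (|X| |U|)^(1/2)`.
`L`: MEL with `H = CU h (cells h X)`, `κ'`, `Λ = 100`.  Suppose `p^(1/2-κ'/8) ≤ |L| ≤ p^(1/2+κ'/8)`.  P3H with `G = CU h (J2 ..)`: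
`|G| ≤ h (2 |cells h X| + 1) ≤ 3 p^(1/2+c₁)`; ENL: `EN ≤ 4 m |L|² ≤ 4 h p^(-κ₁) |L|²`; `4 p |G|⁴ + 100 |G|² p² ≤
2000 p^(3+4c₁)`; fourth root `≤ (8000 p^(3+4c₁-κ₁) |L|²)^(1/4) ≤ 10 p^(3/4+c₁-κ₁/4) |L|^(1/2) ≤
10 p^(1/2+c₁-κ₁/4+κ'/16) |L| ≤ 10 p^(1/2-κ') |L|` (`c₁ - 2 c₁ + κ'/16 ≤ -κ'`), and `|G| ≤ 3 p^(1/2+c₁) ≤
3 p^(c₁+κ'/8) |L| ≤ p^(1/2-κ') |L|`.  Add the two bounds. -/
def COL_stmt : Prop := ∀ κ ε : ℝ, 0 < κ → κ ≤ 1 / 4 → 0 < ε → ∃ (c : ℝ) (p₀ : ℕ), 0 < c ∧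
  ∀ (p : ℕ) [Fact p.Prime], p₀ < p → ∀ (χ : MulChar (ZMod p) ℂ) (h : ℕ) (X B : Finset (ZMod p)) (β : ZMod p → ℂ),
    χ ≠ 1 → (∀ b, ‖β b‖ ≤ 1) → h = ⌊(p : ℝ) ^ κ⌋₊ → (h : ℝ) * (cells h X).card ≤ (p : ℝ) ^ (1 / 2 + c) →
    ((B.card : ℝ) ≤ (p : ℝ) ^ (1 - ε) ∨ (p : ℝ) ^ ε ≤ X.card) →
      ∑ x ∈ X, ‖FB χ B β x‖ ≤ (p : ℝ) ^ (-c) * (Real.sqrt (p * (X.card * B.card)) + X.card * B.card)

/-- MEL (the same statement as `Pool.Agent.OG.MEH_stmt`, already proved; only used as a hypothesis). -/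
def MEL_stmt : Prop := ∀ ε κ Λ : ℝ, 0 < ε → 0 < κ → 0 < Λ → ∃ (c : ℝ) (p₀ : ℕ), 0 < c ∧ ∀ (p : ℕ) [Fact p.Prime],
  p₀ < p → ∀ (χ : MulChar (ZMod p) ℂ) (H X B : Finset (ZMod p)) (β : ZMod p → ℂ), χ ≠ 1 → (∀ b, ‖β b‖ ≤ 1) →
    X ⊆ H → (X.card : ℝ) ≤ (p : ℝ) ^ (1 - ε) →
    ((B.card : ℝ) ≤ (p : ℝ) ^ (1 - ε) ∨ (p : ℝ) ^ ε ≤ X.card) →
    ((p : ℝ) ^ (1 / 2 - κ / 8) ≤ B.card → (B.card : ℝ) ≤ (p : ℝ) ^ (1 / 2 + κ / 8) →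
      ∑ x ∈ H, ‖FB χ B β x‖ ^ 2 ≤ Λ * (p : ℝ) ^ (1 / 2 - κ) * (B.card : ℝ) ^ 2) →
      ∑ x ∈ X, ‖FB χ B β x‖ ≤ (p : ℝ) ^ (-c) * (Real.sqrt (p * (X.card * B.card)) + X.card * B.card)

/-- CEL2 (the same statement as `Pool.Agent.OG.CEN_stmt`, already proved; only used as a hypothesis). -/
def CEM_stmt : Prop := ∀ (p : ℕ) [Fact p.Prime] (V B : Finset (ZMod p)), V.Nonempty →
  ∃ (J : Finset (ZMod p)) (cl : ZMod p → ZMod p), J ⊆ B ∧ (∀ y ∈ J, cl y = y) ∧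
    (∀ b ∈ B, cl b ∈ J ∧ b - cl b ∈ V - V) ∧
    ∀ y ∈ J, ∀ y' ∈ J, ∀ v ∈ V, ∀ v' ∈ V, y + v = y' + v' → y = y'

/-- APC (medium; from PKC, CEM; a system is covered by few translates of a progression).  PKC with `l = 1`, `1/m`:
`|P (1/m)| ≥ |P 1| (1+2m)^(-d) > 1`, so there is `v ≠ 0` in `P (1/m)`; `n v ∈ P (n/m) ⊆ P 1` for `n ≤ m`
(`IsSys.nat_mul_mem`, `IsSys.mono`).  `A = {n v : n < m}` (`m` elements, as `m < p`), CEM for `A`, `B = P 1`: `J ⊆ P 1`, the sets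
`y + A` (`y ∈ J`) are disjoint subsets of `P 2`, so `|J| m ≤ |P 2| ≤ 5^d |P 1|` (PKC), and
`P 1 ⊆ J + (A - A)`, `A - A ⊆ {-m v, 0} + A`: `T = (J - m v) ∪ J`. -/
def APC_stmt : Prop := ∀ (p : ℕ) [Fact p.Prime] (d m : ℕ) (P : ℝ → Finset (ZMod p)), IsSys p d P → 0 < m → m < p →
  (1 + 2 * (m : ℝ)) ^ d < (P 1).card →
    ∃ (v : ZMod p) (T : Finset (ZMod p)), v ≠ 0 ∧ (T.card : ℝ) * m ≤ 2 * 5 ^ d * (P 1).card ∧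
      ∀ y ∈ P 1, ∃ t ∈ T, ∃ n : ℕ, n < m ∧ y = t + (n : ZMod p) * v

/-- DIL (medium; from COL; dilation).  `c` from COL, new constant `c/2`.  `X' = {x/v : x ∈ X}`, `B = {-y/v : y ∈ Y}`,
`β' w = β (-(v w))`: `∑_y β_y χ(x - y) = χ(v) FB χ B β' (x/v)`, `|χ(v)| = 1`.  `X' ⊆ {t/v} + [0, h)`: the points
`t/v + n` (`n < h`) lie in at most `3` cells, so `|cells h X'| ≤ 3 |T|`, and `3 p^(1/2+c/2) ≤ p^(1/2+c)` for large `p`. -/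
def DIL_stmt : Prop := ∀ κ ε : ℝ, 0 < κ → κ ≤ 1 / 4 → 0 < ε → ∃ (c : ℝ) (p₀ : ℕ), 0 < c ∧
  ∀ (p : ℕ) [Fact p.Prime], p₀ < p → ∀ (χ : MulChar (ZMod p) ℂ) (h : ℕ) (X Y T : Finset (ZMod p)) (v : ZMod p)
    (β : ZMod p → ℂ), χ ≠ 1 → (∀ b, ‖β b‖ ≤ 1) → v ≠ 0 → h = ⌊(p : ℝ) ^ κ⌋₊ →
    (h : ℝ) * T.card ≤ (p : ℝ) ^ (1 / 2 + c) → (∀ x ∈ X, ∃ t ∈ T, ∃ n : ℕ, n < h ∧ x = t + (n : ZMod p) * v) →
    ((Y.card : ℝ) ≤ (p : ℝ) ^ (1 - ε) ∨ (p : ℝ) ^ ε ≤ X.card) →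
      ∑ x ∈ X, ‖∑ y ∈ Y, β y * χ (x - y)‖ ≤
        (p : ℝ) ^ (-c) * (Real.sqrt (p * (X.card * Y.card)) + X.card * Y.card)

/-- TRL (medium; from FRE, APC, DIL; THE THEOREM).  FRE: `d, C` (from `K`), `P, F`: `|F| ≤ C`, `|P 1| ≤ C |V|`,
`V ⊆ F + P 1`, so `|P 1| ≥ |V|/C ≥ p^ε/C`.  `κ = min (1/4) (ε/(2(d+1)))`, `h = ⌊p^κ⌋`, `(1+2h)^d ≤ (3 p^κ)^d ≤
3^d p^(ε/2) < |P 1|` for large `p`; APC with `m = h`: `v`, `T`, `|T| h ≤ 2 · 5^d |P 1| ≤ 2 · 5^d C |V|`.  `X ⊆ Z + F + T + {n v}`: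
`h |Z + F + T| ≤ |Z| C · 2 · 5^d C |V| ≤ 2 · 5^d C² p^(1/2+δ) ≤ p^(1/2+c)`, `δ = c/2`.  DIL for `κ, ε`.  (`V` empty: then `X` is
empty.) -/
def TRL_stmt : Prop := ∀ K ε : ℝ, 0 < ε → ∃ (δ : ℝ) (p₀ : ℕ), 0 < δ ∧ ∀ (p : ℕ) [Fact p.Prime], p₀ < p →
  ∀ (χ : MulChar (ZMod p) ℂ) (X Y Z V : Finset (ZMod p)) (β : ZMod p → ℂ), χ ≠ 1 → (∀ b, ‖β b‖ ≤ 1) →
    ((V + V).card : ℝ) ≤ K * (V.card : ℝ) → (p : ℝ) ^ ε ≤ V.card → (Z.card : ℝ) * V.card ≤ (p : ℝ) ^ (1 / 2 + δ) →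
    X ⊆ Z + V → ((Y.card : ℝ) ≤ (p : ℝ) ^ (1 - ε) ∨ (p : ℝ) ^ ε ≤ X.card) →
      ∑ x ∈ X, ‖∑ y ∈ Y, β y * χ (x - y)‖ ≤
        (p : ℝ) ^ (-δ) * (Real.sqrt (p * (X.card * Y.card)) + X.card * Y.card)

end Pool.Agent.OL
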