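import Pool.Agent.helper47.SPI.All
import Pool.Agent.helper90.OT.PSI
import Pool.Agent.helper41.OT.WTF
import Pool.Agent.helper25.OT.FME
import Pool.Agent.helper63.OT.CRR
import Pool.Agent.helper43.OT.HHB
import Pool.Agent.helper51.OT.HHS
import Pool.Agent.helper23.OT.CSB
import Pool.Agent.helper24.OT.MF1
import Pool.Agent.helper29.OT.DIA
import Pool.Agent.helper98.OT.MF2
import Pool.Agent.helper28.OT.GQ
import Pool.Agent.helper71.OT.GF
import Pool.Agent.helper16.OT.DLF
import Pool.Agent.helper54.OT.EXC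
import Pool.Agent.helper40.OT.INN
import Pool.Agent.helper96.OT.SMD
import Pool.Agent.helper92.OT.M4
import Pool.Agent.helper55.OT.MAJ
import Pool.Agent.helper88.OT.PGS
import Pool.Agent.helper92.OT.TAY
import Pool.Agent.helper88.OT.EXP
import Pool.Agent.helper22.OT.SPT
import Pool.Agent.helper40.OT.LSV
import Pool.Agent.helper85.OT.GNA
import Pool.Agent.helper30.OT.GNB
import Pool.Agent.helper75.OT.D1
import Pool.Agent.helper54.OT.PC1
import Pool.Agent.helper88.OT.PC2
import Pool.Agent.helper3.OT.PC3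
import Pool.Agent.helper78.OT.P3
import Pool.Agent.helper43.OT.WMO
import Pool.Agent.helper40.OT.KAR
import Pool.Agent.helper92.OT.SIZ
import Pool.Agent.helper89.OT.MED
import Pool.Agent.helper50.OT.UNI
import Pool.Agent.helper39.OT.DYA
import Pool.Agent.helper26.OT.COB
import Pool.Agent.helper14.OT.COC
import Pool.Agent.helper36.OT.ENL
import Pool.Agent.helper2.OT.COA
import Pool.Agent.helper25.OT.TRZ
import Pool.Agent.helper32.OT.CLW
import Pool.Agent.helper36.OT.ENI
import Pool.Agent.helper90.OT.TRS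
import Pool.Agent.helper4.OT.OLD
import Pool.Agent.helper49.OT.MOI
import Pool.Agent.helper26.OT.OTF
import Pool.Agent.helper27.OT.WNW
import Pool.Agent.helper24.OT.WFA
import Pool.Agent.helper30.OT.WRB
import Pool.Agent.helper71.OT.WMC
import Pool.Agent.helper22.OT.WM1
import Pool.Agent.helper9.OT.WMH
import Pool.Agent.helper54.OT.WMS
import Pool.Agent.helper61.OT.WAS
import Pool.Agent.helper38.OT.WMT
import Pool.Agent.helper3.OT.WMP
import Pool.Agent.helper51.OT.WFD
import Pool.Agent.helper40.OT.W1A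
import Pool.Agent.helper8.OT.RRE
import Pool.Agent.helper44.OT.RRC
import Pool.Agent.helper63.OT.RR1
import Pool.Agent.helper31.OT.RRN
import Pool.Agent.helper75.OT.RRG
import Pool.Agent.helper20.OT.RRH
import Pool.Agent.helper27.OT.RRS
import Pool.Agent.helper33.OT.RRB
import Pool.Agent.helper98.OT.RRW
import Pool.Agent.helper28.OT.QD1
import Pool.Agent.helper97.OT.CPQ
import Pool.Agent.helper73.OT.W2A

/-!
# Project OT (MP_f6e9a2_nt): assembly of the first theorem (progressions)
-/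

set_option autoImplicit false

namespace Pool.Agent.OT

open Finset Pool.Agent.SPI

theorem p_WRB : WRB_stmt := WRB WNW WFA

theorem p_W1 : W1_stmt := W1A p_WRB WMC WM1 WMH WMS (WMT WMS WAS) WMP WFD

theorem p_RRN : RRN_stmt := RRN RRE

theorem p_RRW : RRW_stmt := RRW p_WRB (RRC RRE) RR1 (RRH RRE (RRG RRE p_RRN)) (RRS p_RRN) RRB WFD

theorem p_W2 : W2_stmt := W2A p_RRW QD1 CPQ

theorem p_INN : INN_stmt := INN p_W2

theorem p_MF2 : MF2_stmt := MF2 FME (MF1 PSI CRR CSB) (DIA PSI) HHB HHS PSI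

theorem p_DLF : DLF_stmt := DLF PSI WTF GQ GF

theorem p_M4 : M4_stmt := M4 p_MF2 p_DLF (SMD WTF EXC p_INN)

theorem p_D1 : D1_stmt :=
  D1 MAJ (PGS GSI PLN) TAY EXP (GNB (GNA p_W1 PLN) (LSV PSI WTF SPT PLN))

theorem p_P3 : P3_stmt := P3 p_M4 (PC1 MAJ PSI) PC2 PC3

theorem p_SIZ : SIZ_stmt := SIZ (KAR WMO)

theorem p_MED : MED_stmt := MED p_SIZ

theorem p_COB : COB_stmt := COB (UNI p_MED p_D1) DYA

theorem p_COC : COC_stmt := COC p_MED p_P3

theorem p_COA : COA_stmt := COA p_SIZ p_MED p_P3 ENL p_COB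

theorem p_TRS : TRS_stmt := TRS p_COA p_COB p_COC TRZ CLW ENI

theorem p_OTF : OTF_stmt := OTF p_TRS OLD MOI

end Pool.Agent.OT
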