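import Pool.Agent.helper35.OT.Spec

set_option autoImplicit false

namespace Pool.Agent.helper35.OT

open Finset

private theorem SEQ_den (K : Type) [Field K] [NumberField K] (x : K) :
    ∃ q0 : ℕ, 1 ≤ q0 ∧ IsIntegral ℤ ((q0 : K) * x) := by
  have h1 : IsAlgebraic ℤ x := (IsFractionRing.isAlgebraic_iff ℤ ℚ K).mpr (Algebra.IsAlgebraic.isAlgebraic x)
  obtain ⟨y, hy, hi⟩ := h1.exists_integral_multiple
  refine ⟨y.natAbs, Nat.one_le_iff_ne_zero.mpr (Int.natAbs_ne_zero.mpr hy), ?_⟩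
  rw [zsmul_eq_mul] at hi
  rcases Int.natAbs_eq y with h | h
  · have e : ((y.natAbs : ℕ) : K) = ((y : ℤ) : K) := by
      rw [← Int.cast_natCast, ← h]
    rw [e]
    exact hi
  · have e : ((y.natAbs : ℕ) : K) = -((y : ℤ) : K) := by
      have e1 : ((y.natAbs : ℕ) : ℤ) = -y := by omega
      rw [← Int.cast_natCast, e1, Int.cast_neg]
    rw [e, neg_mul]
    exact hi.neg

private theorem SEQ_aev {K : Type} [CommRing K] (y : K) (L : Polynomial ℤ) (hL : L.natDegree ≤ 2) :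
    Polynomial.aeval y L = (L.coeff 0 : K) + (L.coeff 1 : K) * y + (L.coeff 2 : K) * y ^ 2 := by
  rw [Polynomial.aeval_eq_sum_range' (n := 3) (by omega)]
  simp [Finset.sum_range_succ]

private theorem SEQ_int (K : Type) [Field K] [NumberField K] (x : K) (c : ℕ) (L : Polynomial ℤ) (z : ℕ → K)
    (hL : L.natDegree ≤ 2) (h0 : z 0 = 0)
    (hz : ∀ n, (c : K) * z (n + 1) = z n ^ 2 - Polynomial.aeval (x ^ 2 ^ n) L) (q0 : ℕ)
    (hq : IsIntegral ℤ ((q0 : K) * x)) (n : ℕ) :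
    ∃ m : ℕ, m * c = c ^ 2 ^ n ∧ IsIntegral ℤ (((m : K) * (q0 : K) ^ 2 ^ n) * z n) := by
  induction n with
  | zero =>
    refine ⟨1, by simp, ?_⟩
    rw [h0, mul_zero]
    exact isIntegral_zero
  | succ n ih =>
    obtain ⟨m, hm, hi⟩ := ih
    refine ⟨c * m ^ 2, ?_, ?_⟩
    · calc c * m ^ 2 * c = (m * c) ^ 2 := by ring
        _ = c ^ 2 ^ (n + 1) := by rw [hm, ← pow_mul, pow_succ]
    · have hQ : IsIntegral ℤ ((m : K) * (q0 : K) ^ 2 ^ n) :=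
        (isIntegral_natCast _).mul ((isIntegral_natCast _).pow _)
      have hQy : IsIntegral ℤ (((m : K) * (q0 : K) ^ 2 ^ n) * x ^ 2 ^ n) := by
        have e : ((m : K) * (q0 : K) ^ 2 ^ n) * x ^ 2 ^ n = (m : K) * ((q0 : K) * x) ^ 2 ^ n := by
          rw [mul_pow, mul_assoc]
        rw [e]
        exact (isIntegral_natCast _).mul (hq.pow _)
      have e : ((c * m ^ 2 : ℕ) : K) * (q0 : K) ^ 2 ^ (n + 1) * z (n + 1) =
          (((m : K) * (q0 : K) ^ 2 ^ n) * z n) ^ 2 -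
            ((L.coeff 0 : K) * ((m : K) * (q0 : K) ^ 2 ^ n) ^ 2 +
              (L.coeff 1 : K) * (((m : K) * (q0 : K) ^ 2 ^ n) * (((m : K) * (q0 : K) ^ 2 ^ n) * x ^ 2 ^ n)) +
              (L.coeff 2 : K) * (((m : K) * (q0 : K) ^ 2 ^ n) * x ^ 2 ^ n) ^ 2) := by
        have e1 : (q0 : K) ^ 2 ^ (n + 1) = ((q0 : K) ^ 2 ^ n) ^ 2 := by
          rw [← pow_mul, pow_succ]
        rw [e1]
        push_cast
        have e2 : (c : K) * (m : K) ^ 2 * ((q0 : K) ^ 2 ^ n) ^ 2 * z (n + 1) =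
            (m : K) ^ 2 * ((q0 : K) ^ 2 ^ n) ^ 2 * ((c : K) * z (n + 1)) := by ring
        rw [e2, hz n, SEQ_aev _ _ hL]
        ring
      rw [e]
      refine (hi.pow 2).sub (((isIntegral_intCast _).mul (hQ.pow 2)).add
        ((isIntegral_intCast _).mul (hQ.mul hQy)) |>.add ((isIntegral_intCast _).mul (hQy.pow 2)))

private theorem SEQ_bd (K : Type) [Field K] [NumberField K] (x : K) (c : ℕ) (L : Polynomial ℤ) (z : ℕ → K)
    (hc : 1 ≤ c) (hL : L.natDegree ≤ 2) (h0 : z 0 = 0)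
    (hz : ∀ n, (c : K) * z (n + 1) = z n ^ 2 - Polynomial.aeval (x ^ 2 ^ n) L) (l T : ℝ)
    (hl : |(L.coeff 0 : ℝ)| + |(L.coeff 1 : ℝ)| + |(L.coeff 2 : ℝ)| ≤ l) (hT : 1 + l ≤ T) (σ : K →+* ℂ)
    (hx : ‖σ x‖ ≤ T) (n : ℕ) : ‖σ (z n)‖ * T ≤ T ^ 2 ^ (n + 1) := by
  have a0 := abs_nonneg (L.coeff 0 : ℝ)
  have a1 := abs_nonneg (L.coeff 1 : ℝ)
  have a2 := abs_nonneg (L.coeff 2 : ℝ)
  have hl0 : 0 ≤ l := by linarith
  have hT1 : 1 ≤ T := by linarith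
  have hT0 : 0 < T := by linarith
  induction n with
  | zero =>
    rw [h0, map_zero, norm_zero, zero_mul]
    positivity
  | succ n ih =>
    have hA2 : T ^ 2 ≤ T ^ 2 ^ (n + 1) := pow_le_pow_right₀ hT1 (by
      rw [pow_succ]
      have := Nat.one_le_two_pow (n := n)
      omega)
    have hAA : T ^ 2 ^ (n + 1 + 1) = (T ^ 2 ^ (n + 1)) ^ 2 := by rw [← pow_mul, pow_succ 2 (n + 1)]
    have hy : ‖σ (x ^ 2 ^ n)‖ ≤ T ^ 2 ^ n := by
      rw [map_pow, norm_pow]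
      exact pow_le_pow_left₀ (norm_nonneg _) hx _
    have hAy : T ^ 2 ^ (n + 1) = (T ^ 2 ^ n) ^ 2 := by rw [← pow_mul, pow_succ]
    have hy1 : 1 ≤ T ^ 2 ^ n := one_le_pow₀ hT1
    have hy2 : ‖σ (x ^ 2 ^ n)‖ ^ 2 ≤ T ^ 2 ^ (n + 1) := by
      rw [hAy]
      exact pow_le_pow_left₀ (norm_nonneg _) hy _
    have hy3 : T ^ 2 ^ n ≤ T ^ 2 ^ (n + 1) := by
      rw [hAy]
      nlinarith
    have hk : ‖σ (z (n + 1))‖ ≤ ‖σ (z n)‖ ^ 2 + l * T ^ 2 ^ (n + 1) := by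
      have e1 : σ ((c : K) * z (n + 1)) = σ (z n) ^ 2 - ((L.coeff 0 : ℂ) + (L.coeff 1 : ℂ) * σ (x ^ 2 ^ n) +
          (L.coeff 2 : ℂ) * σ (x ^ 2 ^ n) ^ 2) := by
        rw [hz n, SEQ_aev _ _ hL]
        simp only [map_sub, map_add, map_mul, map_pow, map_intCast]
      have e2 : ‖σ (z (n + 1))‖ ≤ ‖σ ((c : K) * z (n + 1))‖ := by
        rw [map_mul, norm_mul, map_natCast, Complex.norm_natCast]
        have : (1 : ℝ) ≤ (c : ℝ) := by exact_mod_cast hc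
        nlinarith [norm_nonneg (σ (z (n + 1)))]
      have e3 : ‖(L.coeff 0 : ℂ)‖ = |(L.coeff 0 : ℝ)| := by
        rw [Complex.norm_intCast]
      have e4 : ‖(L.coeff 1 : ℂ)‖ = |(L.coeff 1 : ℝ)| := by
        rw [Complex.norm_intCast]
      have e5 : ‖(L.coeff 2 : ℂ)‖ = |(L.coeff 2 : ℝ)| := by
        rw [Complex.norm_intCast]
      have e6 : ‖(L.coeff 0 : ℂ) + (L.coeff 1 : ℂ) * σ (x ^ 2 ^ n) + (L.coeff 2 : ℂ) * σ (x ^ 2 ^ n) ^ 2‖ ≤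
          |(L.coeff 0 : ℝ)| + |(L.coeff 1 : ℝ)| * ‖σ (x ^ 2 ^ n)‖ + |(L.coeff 2 : ℝ)| * ‖σ (x ^ 2 ^ n)‖ ^ 2 := by
        refine (norm_add_le _ _).trans (add_le_add ((norm_add_le _ _).trans ?_) ?_)
        · rw [norm_mul, e3, e4]
        · rw [norm_mul, norm_pow, e5]
      have e7 : |(L.coeff 0 : ℝ)| + |(L.coeff 1 : ℝ)| * ‖σ (x ^ 2 ^ n)‖ + |(L.coeff 2 : ℝ)| * ‖σ (x ^ 2 ^ n)‖ ^ 2 ≤
          l * T ^ 2 ^ (n + 1) := by
        have b0 : |(L.coeff 0 : ℝ)| ≤ |(L.coeff 0 : ℝ)| * T ^ 2 ^ (n + 1) :=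
          le_mul_of_one_le_right a0 (hy1.trans hy3)
        have b1 : |(L.coeff 1 : ℝ)| * ‖σ (x ^ 2 ^ n)‖ ≤ |(L.coeff 1 : ℝ)| * T ^ 2 ^ (n + 1) :=
          mul_le_mul_of_nonneg_left (hy.trans hy3) a1
        have b2 : |(L.coeff 2 : ℝ)| * ‖σ (x ^ 2 ^ n)‖ ^ 2 ≤ |(L.coeff 2 : ℝ)| * T ^ 2 ^ (n + 1) :=
          mul_le_mul_of_nonneg_left hy2 a2
        have b3 : (|(L.coeff 0 : ℝ)| + |(L.coeff 1 : ℝ)| + |(L.coeff 2 : ℝ)|) * T ^ 2 ^ (n + 1) ≤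
            l * T ^ 2 ^ (n + 1) := mul_le_mul_of_nonneg_right hl (by positivity)
        nlinarith
      calc ‖σ (z (n + 1))‖ ≤ ‖σ ((c : K) * z (n + 1))‖ := e2
        _ = ‖σ (z n) ^ 2 - ((L.coeff 0 : ℂ) + (L.coeff 1 : ℂ) * σ (x ^ 2 ^ n) +
          (L.coeff 2 : ℂ) * σ (x ^ 2 ^ n) ^ 2)‖ := by rw [e1]
        _ ≤ ‖σ (z n) ^ 2‖ + ‖(L.coeff 0 : ℂ) + (L.coeff 1 : ℂ) * σ (x ^ 2 ^ n) +
          (L.coeff 2 : ℂ) * σ (x ^ 2 ^ n) ^ 2‖ := norm_sub_le _ _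
        _ ≤ ‖σ (z n)‖ ^ 2 + l * T ^ 2 ^ (n + 1) := by
          rw [norm_pow]
          exact add_le_add le_rfl (e6.trans e7)
    rw [hAA]
    generalize T ^ 2 ^ (n + 1) = A at *
    generalize ‖σ (z (n + 1))‖ = w at *
    have hv0 := norm_nonneg (σ (z n))
    generalize ‖σ (z n)‖ = v at *
    have hA0 : 0 ≤ A := by nlinarith
    have f1 : (v * T) ^ 2 ≤ A ^ 2 := pow_le_pow_left₀ (by positivity) ih 2
    have f2 : l * A * T ^ 2 ≤ l * A * A := mul_le_mul_of_nonneg_left hA2 (by positivity)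
    have f3 : (v ^ 2 + l * A) * T * T ≤ A ^ 2 * T := by
      have f4 : (1 + l) * A ^ 2 ≤ T * A ^ 2 := mul_le_mul_of_nonneg_right hT (by positivity)
      nlinarith
    have f5 : (v ^ 2 + l * A) * T ≤ A ^ 2 := le_of_mul_le_mul_right f3 hT0
    exact (mul_le_mul_of_nonneg_right hk hT0.le).trans f5

theorem SEQ : SEQ_stmt := by
  intro K _ _ x c L z hc hL h0 hz
  obtain ⟨q0, hq1, hq⟩ := SEQ_den K x
  have hfin : Finite (K →+* ℂ) := inferInstance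
  have : Fintype (K →+* ℂ) := Fintype.ofFinite _
  set l : ℕ := (L.coeff 0).natAbs + (L.coeff 1).natAbs + (L.coeff 2).natAbs with hldef
  set T : ℕ := 1 + l + ∑ σ : K →+* ℂ, ⌈‖σ x‖⌉₊ with hTdef
  have hT1 : 1 ≤ T := by omega
  refine ⟨c * q0, T ^ 2, Nat.one_le_iff_ne_zero.mpr (by positivity), Nat.one_le_pow _ _ hT1, ?_⟩
  intro n
  refine ⟨?_, ?_, ?_⟩
  · have e : ((c * q0 : ℕ) : K) ^ 2 ^ n * x ^ 2 ^ n = (c : K) ^ 2 ^ n * ((q0 : K) * x) ^ 2 ^ n := by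
      push_cast
      rw [mul_pow, mul_pow, mul_assoc]
    rw [e]
    exact ((isIntegral_natCast _).pow _).mul (hq.pow _)
  · obtain ⟨m, hm, hi⟩ := SEQ_int K x c L z hL h0 hz q0 hq n
    have e : ((c * q0 : ℕ) : K) ^ 2 ^ n * z n = (c : K) * (((m : K) * (q0 : K) ^ 2 ^ n) * z n) := by
      have hm' : (m : K) * (c : K) = (c : K) ^ 2 ^ n := by exact_mod_cast congrArg (Nat.cast : ℕ → K) hm
      push_cast
      rw [mul_pow, ← hm']
      ring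
    rw [e]
    exact (isIntegral_natCast _).mul hi
  · intro σ
    have hx : ‖σ x‖ ≤ (T : ℝ) := by
      have h1 : ‖σ x‖ ≤ (⌈‖σ x‖⌉₊ : ℝ) := Nat.le_ceil _
      have h2 : ⌈‖σ x‖⌉₊ ≤ ∑ σ : K →+* ℂ, ⌈‖σ x‖⌉₊ :=
        Finset.single_le_sum (f := fun σ : K →+* ℂ => ⌈‖σ x‖⌉₊) (fun _ _ => Nat.zero_le _) (Finset.mem_univ σ)
      have h3 : ⌈‖σ x‖⌉₊ ≤ T := by omega
      exact h1.trans (by exact_mod_cast h3)
    have hT1r : (1 : ℝ) ≤ (T : ℝ) := by exact_mod_cast hT1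
    have hb := SEQ_bd K x c L z hc hL h0 hz (l : ℝ) (T : ℝ) (by
      rw [hldef]
      push_cast
      simp only [Nat.cast_natAbs, Int.cast_abs]
      exact le_rfl) (by
      have : 1 + l ≤ T := by omega
      exact_mod_cast this) σ hx n
    have hBB : ((T ^ 2 : ℕ) : ℝ) ^ 2 ^ n = (T : ℝ) ^ 2 ^ (n + 1) := by
      push_cast
      rw [← pow_mul, pow_succ, mul_comm 2]
    rw [hBB]
    constructor
    · rw [map_pow, norm_pow]
      refine (pow_le_pow_left₀ (norm_nonneg _) hx _).trans (pow_le_pow_right₀ hT1r ?_)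
      exact Nat.pow_le_pow_right (by norm_num) (by omega)
    · refine le_trans ?_ hb
      exact le_mul_of_one_le_right (norm_nonneg _) hT1r

end Pool.Agent.helper35.OT
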