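import Mathlib
import Pool.Agent.helper64.OT.SpecF

/-!
# Project OT, explicit exponents: `X` in a progression of at most `p^(1/2)` terms, `Y` arbitrary, sizes `p^(19/42+ε)`
-/

set_option autoImplicit false

namespace Pool.Agent.OG

open Finset Pool.Agent.OT

/-- SPX (short-medium, numeric; from `Pool.Agent.PJ.p_FING`, see the imports of
`Pool/Agent/Results/MP_f6e9a2_nt/SparseSubset.lean` and its statement).  Use `p_FING 3 3 ε₁` with `ε₁ = min ε (1/20)`,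
`A := X`, `B := {-y : y ∈ Y}`, `β' w = β (-w)`, `a = 1, b = 0, c = 0, d = 1` (`z = x.val`), `N = Nat.sqrt p + 1`
(`x.val^2 ≤ p` gives `x.val < N`; `p^(1/2) ≤ N ≤ 2 p^(1/2)`), `V = p^(1/6)` (`V^6 = p`).  Conditions, for large `p`, as
`|X|, |Y| ≥ p^(19/42+ε)`:  `N² p^(ε₁) ≤ 4 p^(1+ε₁) ≤ p^(1/6) |X|²` (`2 · 19/42 + 1/6 > 1`);
`N^5 p^(1+ε₁) ≤ 32 p^(7/2+ε₁) ≤ p^(1/3) |X|^6 |Y|` (`7 · 19/42 + 1/3 = 7/2`, and `7 ε > ε₁`);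
`N^6 p^(ε₁) ≤ 64 p^(3+ε₁) ≤ |X|^6 |Y|` (`7 · 19/42 = 19/6 > 3`);
`V N^5 p^(1+1/3+ε₁) ≤ 32 p^(1/6+5/2+4/3+ε₁) = 32 p^(4+ε₁) ≤ |X|^7 |Y|²` (`9 · 19/42 = 57/14 > 4`). -/
def SPX_stmt : Prop := ∀ ε : ℝ, 0 < ε → ∃ (δ : ℝ) (p₀ : ℕ), 0 < δ ∧ ∀ (p : ℕ) [Fact p.Prime], p₀ < p →
  ∀ (χ : MulChar (ZMod p) ℂ) (X Y : Finset (ZMod p)) (β : ZMod p → ℂ), χ ≠ 1 → (∀ b, ‖β b‖ ≤ 1) →
    (∀ x ∈ X, x.val ^ 2 ≤ p) → (p : ℝ) ^ (19 / 42 + ε) ≤ X.card → (p : ℝ) ^ (19 / 42 + ε) ≤ Y.card →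
      ∑ x ∈ X, ‖∑ y ∈ Y, β y * χ (x - y)‖ ≤ (p : ℝ) ^ (-δ) * (X.card * Y.card)

end Pool.Agent.OG
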